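import Pool.Agent.H96.FD.FNa

/-!
# FNb: the same for the counting function

`L = log x`, `N = ⌊x⌋₊ + 1`, `w = yy x`, `S = {a, b}`, `D ⊆ Icc 1 H \ {a,b}`, `T = ∑_{e∈D} sW x {a,b,e}`.
* `FN_max`: as `TSu`: `s e = 1` if `L^3 cnt x {a,b,e}/x > 16 sing {a,b,e}`, else `0`; `TS_cnt 3`, `PW_sing 3`; the error `|D| x^(1/2)` is `≤ ε₁ x T` because `T ≥ c |D| sW x S ≥ c² |D| sW x {a} = c² |D|` (`LO` twice, `sW x {a} = 1`: `MOM_avgM`).
  `adm {a,b,e}` from `sing ≠ 0`: if `nuH p = p` for some prime `p` then `loc = 0` and the product is `0` (see `sing_eq_zero...` in `Pool/Agent/H6/MF` or `Pool/Agent/H6/AE`).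
-/

set_option autoImplicit false

namespace Pool.Agent.H96.FD

open Finset Pool.Agent.H17 Pool.Agent.H6.MF Pool.Agent.H6.MB Pool.Agent.H12.DM Pool.Agent.H6.AE Pool.Agent.H96.AE Pool.Agent.H96.AS

private theorem FNb_ev (c : ℝ) (hc : 0 < c) (ε : ℝ) (hε : 0 < ε) : ∃ X : ℝ, ∀ x : ℝ, X ≤ x → 1 ≤ x ∧
    1 ≤ Real.log x ∧ x ^ (1 / 2 : ℝ) ≤ ε * x * c ∧ 1 ≤ ε * x := by
  have e3 : ∀ᶠ x : ℝ in Filter.atTop, 1 / (ε * c) ≤ x ^ (1 / 2 : ℝ) :=
    (tendsto_rpow_atTop (show (0 : ℝ) < 1 / 2 by norm_num)).eventually_ge_atTop _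
  have e2 : ∀ᶠ x : ℝ in Filter.atTop, 1 ≤ Real.log x :=
    Real.tendsto_log_atTop.eventually_ge_atTop 1
  obtain ⟨X, hX⟩ := Filter.eventually_atTop.1 (e2.and (e3.and ((Filter.eventually_ge_atTop (1 : ℝ)).and
    (Filter.eventually_ge_atTop (1 / ε)))))
  refine ⟨X, fun x hx => ?_⟩
  obtain ⟨hL, h3, hx1, hx2⟩ := hX x hx
  have hx0 : 0 < x := by linarith
  have hec : 0 < ε * c := by positivity
  refine ⟨hx1, hL, ?_, ?_⟩
  · have h4 : x ^ (1 / 2 : ℝ) * x ^ (1 / 2 : ℝ) = x := by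
      rw [← Real.rpow_add hx0]
      norm_num
    rw [div_le_iff₀ hec] at h3
    have h5 : 0 ≤ x ^ (1 / 2 : ℝ) := by positivity
    calc x ^ (1 / 2 : ℝ) = 1 * x ^ (1 / 2 : ℝ) := (one_mul _).symm
      _ ≤ (x ^ (1 / 2 : ℝ) * (ε * c)) * x ^ (1 / 2 : ℝ) := mul_le_mul_of_nonneg_right h3 h5
      _ = (x ^ (1 / 2 : ℝ) * x ^ (1 / 2 : ℝ)) * (ε * c) := by ring
      _ = ε * x * c := by rw [h4]; ring
  · rw [div_le_iff₀ hε] at hx2
    linarith

private theorem FNb_adm {s t : Finset ℤ} (h : s ⊆ t) (ht : adm t) : adm s := by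
  intro p hp
  refine lt_of_le_of_lt ?_ (ht p hp)
  unfold nuH
  exact Finset.card_le_card (Finset.image_subset_image h)

private theorem FNb_ins (a b e : ℤ) : insert e ({a, b} : Finset ℤ) = {a, b, e} := by
  ext t
  simp only [Finset.mem_insert, Finset.mem_singleton]
  tauto

private theorem FNb_card {a b e : ℤ} (hab : a ≠ b) (he : e ∉ ({a, b} : Finset ℤ)) :
    ({a, b, e} : Finset ℤ).card = 3 := by
  rw [← FNb_ins, Finset.card_insert_of_notMem he, Finset.card_pair hab]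

private theorem FNb_prod (f : ℤ → ℝ) {a b e : ℤ} (hab : a ≠ b) (he : e ∉ ({a, b} : Finset ℤ)) :
    ∏ c ∈ ({a, b, e} : Finset ℤ), f c = f a * f b * f e := by
  rw [← FNb_ins, Finset.prod_insert he, Finset.prod_pair hab]
  ring

private theorem FNb_low {c : ℝ} (hc0 : 0 < c)
    (hLO : ∀ (x : ℝ) (S : Finset ℤ), S.card ≤ 2 → ∀ e : ℤ, e ∉ S → adm (insert e S) →
      c * sW x S ≤ sW x (insert e S)) (x : ℝ) {a b e : ℤ} (hab : a ≠ b)
    (he : e ∉ ({a, b} : Finset ℤ)) (had : adm {a, b, e}) : c * c ≤ sW x {a, b, e} := by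
  have h1 : sW x {b} = 1 := by
    unfold sW
    simp only [Finset.prod_singleton]
    exact MOM_avgM (yy x) b
  have h2 : c * sW x {b} ≤ sW x {a, b} := by
    refine hLO x {b} (by simp) a (by simpa using hab) (FNb_adm ?_ had)
    intro t
    simp only [Finset.mem_insert, Finset.mem_singleton]
    tauto
  have h3 := hLO x {a, b} (by rw [Finset.card_pair hab]) e he (by rw [FNb_ins]; exact had)
  rw [FNb_ins] at h3
  rw [h1, mul_one] at h2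
  exact (mul_le_mul_of_nonneg_left h2 hc0.le).trans h3

private theorem FNb_ar {e ε T₁ T₂ W₁ W₂ : ℝ} (he0 : 0 < e) (he1 : e ≤ 1 / 2) (he2 : 72 * e ≤ ε)
    (hT10 : 0 ≤ T₁) (hT20 : 0 ≤ T₂) (hW10 : 0 ≤ W₁) (hT21 : T₂ ≤ T₁) (hW21 : W₂ ≤ W₁)
    (hWT1 : W₁ ≤ (1 + 2 * e) * T₁) (hWT2 : W₂ ≤ (1 + 2 * e) * T₂) :
    (1 + e) * ((16 + 2 * e / 2) * W₂ + (2 * e / 2) * W₁) + e * W₁ ≤ ε * T₁ + 16 * T₂ := by
  have a1 : 0 ≤ e * (W₁ - W₂) := mul_nonneg he0.le (by linarith)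
  have r0 : (16 + 2 * e / 2) * W₂ + (2 * e / 2) * W₁ ≤ 16 * W₂ + 2 * e * W₁ := by linarith
  have a2 : 0 ≤ e * (1 / 2 - e) := mul_nonneg he0.le (by linarith)
  have r1 : (1 + e) * W₂ ≤ T₂ + 4 * e * T₁ := by
    have r2 : (1 + e) * W₂ ≤ (1 + e) * ((1 + 2 * e) * T₂) := mul_le_mul_of_nonneg_left hWT2 (by linarith)
    have r3 : (1 + e) * ((1 + 2 * e) * T₂) ≤ (1 + 4 * e) * T₂ := by
      rw [← mul_assoc]
      exact mul_le_mul_of_nonneg_right (by linarith) hT20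
    have r4 : e * T₂ ≤ e * T₁ := mul_le_mul_of_nonneg_left hT21 he0.le
    linarith
  have r4 : ((1 + e) * (2 * e) + e) * W₁ ≤ 8 * e * T₁ := by
    have r5 : ((1 + e) * (2 * e) + e) * W₁ ≤ (4 * e) * W₁ :=
      mul_le_mul_of_nonneg_right (by linarith) hW10
    have r6 : W₁ ≤ 2 * T₁ := by
      have : (1 + 2 * e) * T₁ ≤ 2 * T₁ := mul_le_mul_of_nonneg_right (by linarith) hT10
      linarith
    have r7 : (4 * e) * W₁ ≤ (4 * e) * (2 * T₁) := mul_le_mul_of_nonneg_left r6 (by positivity)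
    linarith
  have r7 : 72 * e * T₁ ≤ ε * T₁ := mul_le_mul_of_nonneg_right he2 hT10
  have r9 : (1 + e) * ((16 + 2 * e / 2) * W₂ + (2 * e / 2) * W₁) ≤ (1 + e) * (16 * W₂ + 2 * e * W₁) :=
    mul_le_mul_of_nonneg_left r0 (by linarith)
  linarith

theorem FN_max (ε : ℝ) (hε : 0 < ε) : ∃ K X : ℝ, 1 ≤ K ∧ ∀ x : ℝ, X ≤ x → ∀ H : ℕ, (H : ℝ) ≤ (Real.log x) ^ 2 →
    ∀ a ∈ Finset.Icc 1 (H : ℤ), ∀ b ∈ Finset.Icc 1 (H : ℤ), a ≠ b →
    ∀ D : Finset ℤ, D ⊆ Finset.Icc 1 (H : ℤ) \ {a, b} → K * Real.log x ≤ (D.card : ℝ) → (∀ e ∈ D, sing {a, b, e} ≠ 0) →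
    ∑ e ∈ D, max 0 ((Real.log x) ^ 3 * (cnt x {a, b, e} : ℝ) / x - 16 * sing {a, b, e}) ≤
      ε * ∑ e ∈ D, sing {a, b, e} := by
  obtain ⟨e, he0, he1, he2⟩ : ∃ e : ℝ, 0 < e ∧ e ≤ 1 / 2 ∧ 72 * e ≤ ε := by
    refine ⟨min (1 / 2) (ε / 72), by positivity, min_le_left _ _, ?_⟩
    have := min_le_right (1 / 2) (ε / 72)
    linarith
  obtain ⟨K, X₁, hK, hTS⟩ := FN (2 * e) (by positivity)
  obtain ⟨c, hc0, hLO⟩ := LO 2
  obtain ⟨X₃, hcn⟩ := TS_cnt 3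
  obtain ⟨X₄, hPW⟩ := PW_sing 3 e he0
  obtain ⟨X₅, hev⟩ := FNb_ev (c * c) (by positivity) e he0
  refine ⟨K, max X₁ (max X₃ (max X₄ X₅)), hK, fun x hx H hH a ha b hb hab D hD hcard hne => ?_⟩
  simp only [max_le_iff] at hx
  obtain ⟨hx1, hx3, hx4, hx5⟩ := hx
  obtain ⟨hxx, hL1, hpw, hex⟩ := hev x hx5
  have hx0 : 0 < x := by linarith
  have hL0 : 0 < Real.log x := by linarith
  have hadm : ∀ d ∈ D, adm {a, b, d} := fun d hd => (sing_ne_zero_iff _).1 (hne d hd)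
  have hdn : ∀ d ∈ D, d ∉ ({a, b} : Finset ℤ) := fun d hd => (Finset.mem_sdiff.1 (hD hd)).2
  have hN : (⌊x⌋₊ : ℝ) + 1 ≤ (1 + e) * x := by
    have := Nat.floor_le hx0.le
    nlinarith
  have hfac : ∀ d ∈ D, ({a, b, d} : Finset ℤ) ⊆ Finset.Icc 1 (H : ℤ) ∧ ({a, b, d} : Finset ℤ).card = 3 := by
    intro d hd
    refine ⟨?_, FNb_card hab (hdn d hd)⟩
    intro t ht
    simp only [Finset.mem_insert, Finset.mem_singleton] at ht
    rcases ht with rfl | rfl | rfl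
    · exact ha
    · exact hb
    · exact (Finset.mem_sdiff.1 (hD hd)).1
  have hsW : ∀ d ∈ D, sW x {a, b, d} ≤ (1 + 2 * e) * sing {a, b, d} := by
    intro d hd
    obtain ⟨hCI, hCc⟩ := hfac d hd
    have h1 := (hPW x hx4 {a, b, d} (by omega) hCc.le (fun t ht t' ht' => ?_)).1
    · have h2 := sW_nonneg x ({a, b, d} : Finset ℤ)
      have h3 : sW x {a, b, d} * (1 - (1 + 2 * e) * (1 - e)) ≤ 0 := by
        have h5 : 1 - (1 + 2 * e) * (1 - e) ≤ 0 := by nlinarith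
        exact mul_nonpos_of_nonneg_of_nonpos h2 h5
      have h6 : (1 + 2 * e) * ((1 - e) * sW x {a, b, d}) ≤ (1 + 2 * e) * sing {a, b, d} :=
        mul_le_mul_of_nonneg_left h1 (by linarith)
      nlinarith
    · have ha1 := Finset.mem_Icc.1 (hCI ht)
      have ha2 := Finset.mem_Icc.1 (hCI ht')
      have h3 : |t - t'| ≤ (H : ℤ) := by
        rw [abs_le]
        omega
      have h4 : |((t - t' : ℤ) : ℝ)| ≤ (H : ℝ) := by
        rw [← Int.cast_abs]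
        exact_mod_cast h3
      nlinarith [sq_nonneg (Real.log x)]
  set s : ℤ → ℝ := fun d => if 16 * sing {a, b, d} < (Real.log x) ^ 3 * (cnt x {a, b, d} : ℝ) / x then 1 else 0
    with hs
  have hs01 : ∀ d, 0 ≤ s d ∧ s d ≤ 1 := by
    intro d
    rw [hs]
    beta_reduce
    split_ifs <;> norm_num
  have hmax : ∀ d ∈ D, max 0 ((Real.log x) ^ 3 * (cnt x {a, b, d} : ℝ) / x - 16 * sing {a, b, d}) =
      s d * ((Real.log x) ^ 3 * (cnt x {a, b, d} : ℝ) / x - 16 * sing {a, b, d}) := by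
    intro d _
    rw [hs]
    beta_reduce
    split_ifs with h
    · rw [one_mul, max_eq_right (by linarith)]
    · rw [zero_mul, max_eq_left (by linarith)]
  rw [Finset.sum_congr rfl hmax]
  have hT := hTS x hx1 H hH a ha b hb hab D hD hcard hadm s hs01
  have hsing0 : ∀ d, 0 ≤ sing {a, b, d} := fun d => sing_nonneg _
  have hW0 : ∀ d : ℤ, 0 ≤ sW x {a, b, d} := fun d => sW_nonneg x _
  set T₁ : ℝ := ∑ d ∈ D, sing {a, b, d} with hT1
  set T₂ : ℝ := ∑ d ∈ D, s d * sing {a, b, d} with hT2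
  set W₁ : ℝ := ∑ d ∈ D, sW x {a, b, d} with hW1
  set W₂ : ℝ := ∑ d ∈ D, s d * sW x {a, b, d} with hW2
  have hT10 : 0 ≤ T₁ := Finset.sum_nonneg fun d _ => hsing0 d
  have hT20 : 0 ≤ T₂ := Finset.sum_nonneg fun d _ => mul_nonneg (hs01 d).1 (hsing0 d)
  have hW10 : 0 ≤ W₁ := Finset.sum_nonneg fun d _ => hW0 d
  have hW20 : 0 ≤ W₂ := Finset.sum_nonneg fun d _ => mul_nonneg (hs01 d).1 (hW0 d)
  have hT21 : T₂ ≤ T₁ := Finset.sum_le_sum fun d _ => mul_le_of_le_one_left (hsing0 d) (hs01 d).2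
  have hW21 : W₂ ≤ W₁ := Finset.sum_le_sum fun d _ => mul_le_of_le_one_left (hW0 d) (hs01 d).2
  have hWT1 : W₁ ≤ (1 + 2 * e) * T₁ := by
    rw [hT1, Finset.mul_sum]
    exact Finset.sum_le_sum hsW
  have hWT2 : W₂ ≤ (1 + 2 * e) * T₂ := by
    rw [hT2, Finset.mul_sum]
    refine Finset.sum_le_sum fun d hd => ?_
    have := mul_le_mul_of_nonneg_left (hsW d hd) (hs01 d).1
    linarith
  have hDW : (D.card : ℝ) * (c * c) ≤ W₁ := by
    rw [hW1]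
    have h1 : ∑ _d ∈ D, (c * c) ≤ ∑ d ∈ D, sW x {a, b, d} :=
      Finset.sum_le_sum fun d hd => FNb_low hc0 hLO x hab (hdn d hd) (hadm d hd)
    rwa [Finset.sum_const, nsmul_eq_mul] at h1
  have hcnt : ∑ d ∈ D, s d * ((Real.log x) ^ 3 * (cnt x {a, b, d} : ℝ)) ≤
      (∑ d ∈ D, s d * ∑ n ∈ JJ x H, La x ((n : ℤ) - a) * La x ((n : ℤ) - b) * La x ((n : ℤ) - d)) +
        (D.card : ℝ) * x ^ (1 / 2 : ℝ) := by
    have h1 : ∀ d ∈ D, s d * ((Real.log x) ^ 3 * (cnt x {a, b, d} : ℝ)) ≤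
        s d * (∑ n ∈ JJ x H, La x ((n : ℤ) - a) * La x ((n : ℤ) - b) * La x ((n : ℤ) - d)) +
          x ^ (1 / 2 : ℝ) := by
      intro d hd
      obtain ⟨hCI, hCc⟩ := hfac d hd
      have h2 := (abs_le.1 (hcn x hx3 H hH {a, b, d} hCI (by omega) hCc.le)).2
      rw [hCc] at h2
      have e1 : ∑ n ∈ JJ x H, ∏ c ∈ ({a, b, d} : Finset ℤ), La x ((n : ℤ) - c) =
          ∑ n ∈ JJ x H, La x ((n : ℤ) - a) * La x ((n : ℤ) - b) * La x ((n : ℤ) - d) :=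
        Finset.sum_congr rfl fun n _ => FNb_prod (fun t => La x ((n : ℤ) - t)) hab (hdn d hd)
      rw [e1] at h2
      have h3 : 0 ≤ x ^ (1 / 2 : ℝ) := by positivity
      have h4 := mul_le_mul_of_nonneg_left h2 (hs01 d).1
      have h5 := mul_le_of_le_one_left h3 (hs01 d).2
      linarith
    refine (Finset.sum_le_sum h1).trans (le_of_eq ?_)
    rw [Finset.sum_add_distrib, Finset.sum_const, nsmul_eq_mul]
  have hLHS : ∑ d ∈ D, s d * ((Real.log x) ^ 3 * (cnt x {a, b, d} : ℝ) / x - 16 * sing {a, b, d}) =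
      (∑ d ∈ D, s d * ((Real.log x) ^ 3 * (cnt x {a, b, d} : ℝ))) / x - 16 * T₂ := by
    rw [hT2, Finset.sum_div, Finset.mul_sum, ← Finset.sum_sub_distrib]
    refine Finset.sum_congr rfl fun d _ => ?_
    ring
  rw [hLHS, sub_le_iff_le_add, div_le_iff₀ hx0]
  have q1 : (D.card : ℝ) * x ^ (1 / 2 : ℝ) ≤ e * x * W₁ := by
    calc (D.card : ℝ) * x ^ (1 / 2 : ℝ) ≤ (D.card : ℝ) * (e * x * (c * c)) :=
          mul_le_mul_of_nonneg_left hpw (Nat.cast_nonneg _)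
      _ = e * x * ((D.card : ℝ) * (c * c)) := by ring
      _ ≤ e * x * W₁ := mul_le_mul_of_nonneg_left hDW (by positivity)
  have q2 : ((⌊x⌋₊ : ℝ) + 1) * ((16 + 2 * e / 2) * W₂ + (2 * e / 2) * W₁) ≤
      (1 + e) * x * ((16 + 2 * e / 2) * W₂ + (2 * e / 2) * W₁) :=
    mul_le_mul_of_nonneg_right hN (by positivity)
  have q3 : (1 + e) * x * ((16 + 2 * e / 2) * W₂ + (2 * e / 2) * W₁) + e * x * W₁ ≤ (ε * T₁ + 16 * T₂) * x := by
    have r8 := FNb_ar he0 he1 he2 hT10 hT20 hW10 hT21 hW21 hWT1 hWT2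
    have r9 := mul_le_mul_of_nonneg_right r8 hx0.le
    linarith
  linarith

end Pool.Agent.H96.FD
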