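import Pool.Agent.H96.FD.PV
import Pool.Agent.H96.AS.Df

/-!
# BD: prime pairs against the residue classes

`L = log x`, `N = ⌊x⌋₊ + 1`, `w = yy x`, `W = WW w`, `La x n = L` for primes `n` in `(x^(1/4), x]`, `JC x H t = {n ∈ [H+1, N+H) : n % W = t}`, `a ≠ b` in `Icc 1 H`, `H ≤ L^2`.
* `BD`: if `gcd(t - a, W) > 1` or `gcd(t - b, W) > 1` then all terms are `0` (a prime `> x^(1/4) > w` is coprime to `W`). Otherwise `n = m + a`, `m` prime `≤ x`, `m ≡ t - a (mod W)` (take `u : ℕ`, `u ≡ t - a`), `n - b = m + (a - b)`: the sum is `L^2` times at most the number in `PV` with `h = a - b`, and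
  `Mm w (t-a) * Mm w (t-b) = wp w ^ 2`, `x ≤ N`.
* `BDs`: sum over the classes: `Mm w (n - e) = Mm w (t - e)` for `n ≡ t`, `∑_{t<W} ∏_{h ∈ {a,b,e}} Mm w (t - h) = W * sW x {a,b,e}` by definition of `avgP`, `a, b, e` distinct.
-/

set_option autoImplicit false

namespace Pool.Agent.H96.FD

open Finset Pool.Agent.H17 Pool.Agent.H6.MF Pool.Agent.H6.MB Pool.Agent.H12.DM Pool.Agent.H6.AE Pool.Agent.H96.AE Pool.Agent.H96.AS

private lemma BD_cop {x : ℝ} (hw : (yy x : ℝ) < x ^ (1 / 4 : ℝ)) {n : ℤ} (h : La x n ≠ 0) :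
    n.toNat.Prime ∧ ((n.toNat : ℕ) : ℤ) = n ∧ x ^ (1 / 4 : ℝ) < (n : ℝ) ∧ (n : ℝ) ≤ x ∧
      n.toNat.Coprime (WW (yy x)) ∧ La x n = Real.log x := by
  unfold La at h ⊢
  split_ifs at h with hc
  · obtain ⟨h1, h2, h3⟩ := hc
    have h1' : n.toNat.Prime := h1
    have hcast : ((n.toNat : ℕ) : ℤ) = n := by
      have := h1'.pos
      omega
    refine ⟨h1', hcast, h2, h3, ?_, if_pos ⟨h1, h2, h3⟩⟩
    rw [coprime_WW]
    intro p hp hpn
    rw [mem_PP] at hp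
    have h4 : p = n.toNat := (Nat.prime_dvd_prime_iff_eq hp.2 h1').mp hpn
    have h5 : (p : ℝ) ≤ (yy x : ℝ) := by exact_mod_cast hp.1
    have h6 : ((n.toNat : ℕ) : ℝ) = (n : ℝ) := by exact_mod_cast congrArg (Int.cast (R := ℝ)) hcast
    rw [h4, h6] at h5
    linarith
  · exact absurd rfl h

private lemma BD_w {x : ℝ} (hx3 : 3 ≤ x) : 1 ≤ Real.log x ∧ (yy x : ℝ) < x ^ (1 / 4 : ℝ) := by
  have hx0 : 0 ≤ x := by linarith
  have hL1 : 1 ≤ Real.log x := by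
    rw [Real.le_log_iff_exp_le (by linarith)]
    have := Real.exp_one_lt_d9
    linarith
  refine ⟨hL1, ?_⟩
  have h1 : (yy x : ℝ) ≤ Real.log (Real.log x) / 100 := by
    unfold yy
    apply Nat.floor_le
    have := Real.log_nonneg hL1
    positivity
  have h2 : Real.log (Real.log x) ≤ Real.log x := (Real.log_le_self (by linarith))
  have h3 : Real.log x ≤ x ^ (1 / 4 : ℝ) / (1 / 4 : ℝ) := Real.log_le_rpow_div hx0 (by norm_num)
  have h4 : 0 < x ^ (1 / 4 : ℝ) := Real.rpow_pos_of_pos (by linarith) _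
  linarith

private lemma BD_per {w : ℕ} {n t : ℕ} (h : n % WW w = t) (e : ℤ) :
    Mm w ((n : ℤ) - e) = Mm w ((t : ℤ) - e) := by
  rw [← Mm_period w ((t : ℤ) - e) ((n / WW w : ℕ) : ℤ)]
  congr 1
  have h2 := Nat.mod_add_div n (WW w)
  rw [h] at h2
  have h3 : (n : ℤ) = (t : ℤ) + (WW w : ℤ) * ((n / WW w : ℕ) : ℤ) := by exact_mod_cast h2.symm
  rw [h3]
  ring

private lemma BD_Mm {x : ℝ} (hw : (yy x : ℝ) < x ^ (1 / 4 : ℝ)) {n t : ℕ} (hn : n % WW (yy x) = t)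
    {e : ℤ} (h : La x ((n : ℤ) - e) ≠ 0) : Mm (yy x) ((t : ℤ) - e) = wp (yy x) := by
  obtain ⟨-, h2, -, -, h5, -⟩ := BD_cop hw h
  rw [← BD_per hn]
  unfold Mm
  rw [if_pos]
  rw [← h2, Int.gcd_natCast_natCast]
  exact h5

theorem BD (η ε : ℝ) (hη : 0 < η) (hη1 : η ≤ 1 / 20) (hε : 0 < ε) : ∃ X : ℝ, ∀ x : ℝ, X ≤ x → ∀ H : ℕ,
    (H : ℝ) ≤ (Real.log x) ^ 2 → ∀ a ∈ Finset.Icc 1 (H : ℤ), ∀ b ∈ Finset.Icc 1 (H : ℤ), a ≠ b → ∀ t : ℕ, t < WW (yy x) →
    ∑ n ∈ JC x H t, La x ((n : ℤ) - a) * La x ((n : ℤ) - b) ≤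
      (1 / (1 / 4 - η) + ε) * (((⌊x⌋₊ : ℝ) + 1) / (WW (yy x) : ℝ)) *
        (Mm (yy x) ((t : ℤ) - a) * Mm (yy x) ((t : ℤ) - b)) := by
  obtain ⟨X1, hX1⟩ := PV η ε hη hη1 hε
  refine ⟨max X1 3, fun x hx H hH a ha b hb hab t ht => ?_⟩
  have hx1 : X1 ≤ x := (le_max_left _ _).trans hx
  have hx3 : 3 ≤ x := (le_max_right _ _).trans hx
  obtain ⟨hL1, hwq⟩ := BD_w hx3
  have hx0 : 0 ≤ x := by linarith
  have hC : 0 ≤ 1 / (1 / 4 - η) + ε := by
    have h1 : 0 < 1 / 4 - η := by linarith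
    positivity
  have hW0 : (0 : ℝ) < WW (yy x) := WW_pos_real _
  by_cases hex : ∃ n ∈ JC x H t, La x ((n : ℤ) - a) * La x ((n : ℤ) - b) ≠ 0
  · obtain ⟨n0, hn0, hne⟩ := hex
    have hn0t : n0 % WW (yy x) = t := by
      unfold JC at hn0
      exact (Finset.mem_filter.mp hn0).2
    have hne1 : La x ((n0 : ℤ) - a) ≠ 0 := left_ne_zero_of_mul hne
    have hne2 : La x ((n0 : ℤ) - b) ≠ 0 := right_ne_zero_of_mul hne
    rw [BD_Mm hwq hn0t hne1, BD_Mm hwq hn0t hne2]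
    obtain ⟨-, hm0, -, -, hm0c, -⟩ := BD_cop hwq hne1
    set m0 : ℕ := ((n0 : ℤ) - a).toNat with hm0d
    have hh0 : a - b ≠ 0 := sub_ne_zero.mpr hab
    rw [Finset.mem_Icc] at ha hb
    have hhL : |((a - b : ℤ) : ℝ)| ≤ (Real.log x) ^ 2 := by
      have h1 : |a - b| ≤ (H : ℤ) := by
        rw [abs_le]
        constructor <;> omega
      have h2 : ((|a - b| : ℤ) : ℝ) ≤ ((H : ℤ) : ℝ) := by exact_mod_cast h1
      rw [Int.cast_abs] at h2
      exact h2.trans (by exact_mod_cast hH)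
    have hPV := hX1 x hx1 (a - b) hh0 hhL m0 hm0c
    set F : Finset ℕ := (Finset.Icc 1 ⌊x⌋₊).filter (fun m : ℕ => m.Prime ∧ m ≡ m0 [MOD WW (yy x)] ∧
      isP ((m : ℤ) + (a - b)) ∧ x ^ (1 / 4 : ℝ) < (m : ℝ) + ((a - b : ℤ) : ℝ)) with hF
    set G : Finset ℕ := (JC x H t).filter
      (fun n : ℕ => La x ((n : ℤ) - a) * La x ((n : ℤ) - b) ≠ 0) with hG
    have hcard : G.card ≤ F.card := by
      apply Finset.card_le_card_of_injOn (fun n : ℕ => ((n : ℤ) - a).toNat)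
      · intro n hn
        rw [Finset.mem_coe, hG, Finset.mem_filter] at hn
        obtain ⟨hn1, hn2⟩ := hn
        have hnt : n % WW (yy x) = t := by
          unfold JC at hn1
          exact (Finset.mem_filter.mp hn1).2
        obtain ⟨p1, p2, p3, p4, p5, -⟩ := BD_cop hwq (left_ne_zero_of_mul hn2)
        obtain ⟨q1, q2, q3, q4, q5, -⟩ := BD_cop hwq (right_ne_zero_of_mul hn2)
        rw [Finset.mem_coe, hF, Finset.mem_filter, Finset.mem_Icc]
        refine ⟨⟨p1.pos, ?_⟩, p1, ?_, ?_, ?_⟩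
        · apply Nat.le_floor
          have h6 : (((((n : ℤ) - a).toNat : ℕ) : ℤ) : ℝ) = (((n : ℤ) - a : ℤ) : ℝ) :=
            congrArg (Int.cast (R := ℝ)) p2
          rw [Int.cast_natCast] at h6
          rw [h6]
          exact p4
        · rw [← Int.natCast_modEq_iff, p2, hm0]
          apply Int.ModEq.sub_right
          rw [Int.natCast_modEq_iff]
          unfold Nat.ModEq
          rw [hnt, hn0t]
        · unfold isP
          rw [p2]
          have : (n : ℤ) - a + (a - b) = (n : ℤ) - b := by ring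
          rw [this]
          exact q1
        · have h6 : (((((n : ℤ) - a).toNat : ℕ) : ℤ) : ℝ) = (((n : ℤ) - a : ℤ) : ℝ) :=
            congrArg (Int.cast (R := ℝ)) p2
          rw [Int.cast_natCast] at h6
          rw [h6]
          push_cast at q3 ⊢
          linarith
      · intro n hn n' hn' hnn
        rw [Finset.mem_coe, hG, Finset.mem_filter] at hn hn'
        obtain ⟨-, p2, -⟩ := BD_cop hwq (left_ne_zero_of_mul hn.2)
        obtain ⟨-, p2', -⟩ := BD_cop hwq (left_ne_zero_of_mul hn'.2)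
        simp only at hnn
        rw [hnn] at p2
        omega
    have hsum : ∑ n ∈ JC x H t, La x ((n : ℤ) - a) * La x ((n : ℤ) - b) =
        (G.card : ℝ) * (Real.log x) ^ 2 := by
      rw [← Finset.sum_filter_ne_zero, ← hG, ← nsmul_eq_mul]
      apply Finset.sum_eq_card_nsmul
      intro n hn
      rw [hG, Finset.mem_filter] at hn
      obtain ⟨-, -, -, -, -, p6⟩ := BD_cop hwq (left_ne_zero_of_mul hn.2)
      obtain ⟨-, -, -, -, -, q6⟩ := BD_cop hwq (right_ne_zero_of_mul hn.2)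
      rw [p6, q6]
      ring
    rw [hsum]
    have hL0 : 0 < (Real.log x) ^ 2 := by positivity
    have hN2 : x ≤ (⌊x⌋₊ : ℝ) + 1 := (Nat.lt_floor_add_one x).le
    have hcardR : (G.card : ℝ) ≤ (F.card : ℝ) := by exact_mod_cast hcard
    calc (G.card : ℝ) * (Real.log x) ^ 2 ≤ ((1 / (1 / 4 - η) + ε) * wp (yy x) ^ 2 *
          (x / ((WW (yy x) : ℝ) * (Real.log x) ^ 2))) * (Real.log x) ^ 2 :=
          mul_le_mul_of_nonneg_right (hcardR.trans hPV) hL0.le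
      _ = (1 / (1 / 4 - η) + ε) * (wp (yy x) * wp (yy x)) * (x / (WW (yy x) : ℝ)) := by
          have e1 : x / ((WW (yy x) : ℝ) * (Real.log x) ^ 2) * (Real.log x) ^ 2 =
              x / (WW (yy x) : ℝ) := by
            field_simp
          rw [mul_assoc, e1]
          ring
      _ ≤ (1 / (1 / 4 - η) + ε) * (wp (yy x) * wp (yy x)) *
          (((⌊x⌋₊ : ℝ) + 1) / (WW (yy x) : ℝ)) := by
          have := wp_pos (yy x)
          apply mul_le_mul_of_nonneg_left _ (by positivity)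
          exact div_le_div_of_nonneg_right hN2 hW0.le
      _ = _ := by ring
  · push Not at hex
    rw [Finset.sum_eq_zero hex]
    have h1 := Mm_nonneg (yy x) ((t : ℤ) - a)
    have h2 := Mm_nonneg (yy x) ((t : ℤ) - b)
    positivity

theorem BDs (η ε : ℝ) (hη : 0 < η) (hη1 : η ≤ 1 / 20) (hε : 0 < ε) : ∃ X : ℝ, ∀ x : ℝ, X ≤ x → ∀ H : ℕ,
    (H : ℝ) ≤ (Real.log x) ^ 2 → ∀ a ∈ Finset.Icc 1 (H : ℤ), ∀ b ∈ Finset.Icc 1 (H : ℤ), a ≠ b →
    ∀ e : ℤ, e ≠ a → e ≠ b →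
    ∑ n ∈ JJ x H, La x ((n : ℤ) - a) * La x ((n : ℤ) - b) * Mm (yy x) ((n : ℤ) - e) ≤
      (1 / (1 / 4 - η) + ε) * ((⌊x⌋₊ : ℝ) + 1) * sW x {a, b, e} := by
  obtain ⟨X1, hX1⟩ := BD η ε hη hη1 hε
  refine ⟨X1, fun x hx H hH a ha b hb hab e hea heb => ?_⟩
  have hWpos : 0 < WW (yy x) := WW_pos _
  rw [← Finset.sum_fiberwise_of_maps_to (s := JJ x H) (t := Finset.range (WW (yy x)))
      (g := fun n => n % WW (yy x)) (fun n _ => Finset.mem_range.mpr (Nat.mod_lt n hWpos))]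
  have hsW : (1 / (1 / 4 - η) + ε) * ((⌊x⌋₊ : ℝ) + 1) * sW x {a, b, e} =
      ∑ t ∈ Finset.range (WW (yy x)), Mm (yy x) ((t : ℤ) - e) *
        ((1 / (1 / 4 - η) + ε) * (((⌊x⌋₊ : ℝ) + 1) / (WW (yy x) : ℝ)) *
        (Mm (yy x) ((t : ℤ) - a) * Mm (yy x) ((t : ℤ) - b))) := by
    unfold sW avgP
    rw [Finset.sum_div, Finset.mul_sum]
    apply Finset.sum_congr rfl
    intro t _
    have h1 : a ∉ ({b, e} : Finset ℤ) := by
      rw [Finset.mem_insert, Finset.mem_singleton]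
      rintro (h | h)
      · exact hab h
      · exact hea h.symm
    have h2 : b ∉ ({e} : Finset ℤ) := by
      rw [Finset.mem_singleton]
      exact fun h => heb h.symm
    beta_reduce
    rw [Finset.prod_insert h1, Finset.prod_insert h2, Finset.prod_singleton]
    ring
  rw [hsW]
  apply Finset.sum_le_sum
  intro t ht
  rw [Finset.mem_range] at ht
  have h1 : ∑ n ∈ (JJ x H).filter (fun n => n % WW (yy x) = t),
      La x ((n : ℤ) - a) * La x ((n : ℤ) - b) * Mm (yy x) ((n : ℤ) - e) =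
      Mm (yy x) ((t : ℤ) - e) * ∑ n ∈ JC x H t, La x ((n : ℤ) - a) * La x ((n : ℤ) - b) := by
    unfold JC
    rw [Finset.mul_sum]
    apply Finset.sum_congr rfl
    intro n hn
    rw [Finset.mem_filter] at hn
    rw [BD_per hn.2]
    ring
  rw [h1]
  exact mul_le_mul_of_nonneg_left (hX1 x hx H hH a ha b hb hab t ht) (Mm_nonneg _ _)

end Pool.Agent.H96.FD
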