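import Pool.Agent.H6.AE.Sgm
import Pool.Agent.H17.UpperMain

/-!
# LO: one more shift changes the singular series by a bounded factor from below

`Sy w s = ∏_{p ∈ PP w} loc s p` (`Sy_eq`), `sW x s = Sy (yy x) s`. `loc s p = (1 - ν_s(p)/p)/(1 - 1/p)^|s|`, `ν' := nuH (insert e S) p ≤ ν + 1`, `ν := nuH S p`. For every prime `p` (`insert e S` admissible at `p`): `loc (insert e S) p = loc S p * (1 - ν'/p)/((1 - ν/p)(1 - 1/p))`.
For `p ≤ 2j + 4`: `(1 - ν'/p) ≥ 1/p`, the other factors are `≤ 1`: the ratio is `≥ 1/p ≥ 1/(2j+4)`. For `p > 2j + 4`: the ratio is `≥ (1 - 1/(p - ν)) (1 - 1/p)⁻¹ = 1 - ν/((p-ν)(p-1))... ≥ 1 - 2j/(p-1)^2·... ≥ 1 - 4 (j+1)/p^2` (`ν ≤ j`, `p - ν ≥ p/2`). The product over all `p ≤ w` is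
`≥ (1/(2j+4))^(2j+4) * ∏_{p > 2j+4} (1 - 4(j+1)/p^2) ≥ c_j > 0` (finite products: `∏ (1 - a_p) ≥ 1 - ∑ a_p` for the primes `> 8 (j+1)^2·...` with `∑ 4(j+1)/p^2 ≤ 1/2`, and a fixed positive lower bound for each of the finitely many others, see `one_sub_sum_le_prod`, `sum_inv_sq_le` in
`Pool/Agent/H17/UpperMain.lean`). `0 < 1 - ν/p` because `ν ≤ ν' < p`.
-/

set_option autoImplicit false

namespace Pool.Agent.H96.FD

open Finset Pool.Agent.H17 Pool.Agent.H6.MF Pool.Agent.H6.MB Pool.Agent.H12.DM Pool.Agent.H6.AE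

theorem LO_nu (S : Finset ℤ) (e : ℤ) (p : ℕ) : nuH (insert e S) p ≤ nuH S p + 1 := by
  unfold nuH
  rw [Finset.image_insert]
  exact Finset.card_insert_le _ _

theorem LO_nu_card (S : Finset ℤ) (p : ℕ) : nuH S p ≤ S.card := by
  unfold nuH
  exact Finset.card_image_le

/-- the per prime comparison -/
theorem LO_loc {S : Finset ℤ} {e : ℤ} (he : e ∉ S) {p : ℕ} (hp : p.Prime) {g : ℝ}
    (hg : g * ((1 - (nuH S p : ℝ) / p) * (1 - 1 / p)) ≤ 1 - (nuH (insert e S) p : ℝ) / p) :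
    g * loc S p ≤ loc (insert e S) p := by
  have hp2 : (2 : ℝ) ≤ p := by exact_mod_cast hp.two_le
  have hp0 : (0 : ℝ) < p := by linarith
  have hu : (0 : ℝ) < 1 - 1 / p := by
    have : (1 : ℝ) / p ≤ 1 / 2 := one_div_le_one_div_of_le (by norm_num) hp2
    linarith
  unfold loc
  rw [Finset.card_insert_of_notMem he, pow_succ, le_div_iff₀ (by positivity)]
  have hw : (1 - 1 / (p : ℝ)) ^ S.card ≠ 0 := (pow_pos hu _).ne'
  have h1 : ∀ w v a : ℝ, w ≠ 0 → g * (a / w) * (w * v) = g * (a * v) := by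
    intro w v a hw
    field_simp
  rw [h1 _ _ _ hw]
  exact hg

theorem LO_small {S : Finset ℤ} {e : ℤ} {p M : ℕ} (hp : p.Prime) (hM : p ≤ M)
    (hadm : nuH (insert e S) p < p) :
    1 / (M : ℝ) * ((1 - (nuH S p : ℝ) / p) * (1 - 1 / p)) ≤ 1 - (nuH (insert e S) p : ℝ) / p := by
  have hp2 : (2 : ℝ) ≤ p := by exact_mod_cast hp.two_le
  have hp0 : (0 : ℝ) < p := by linarith
  have hpM : (p : ℝ) ≤ M := by exact_mod_cast hM
  have hM0 : (0 : ℝ) < M := by linarith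
  have h1 : (nuH (insert e S) p : ℝ) + 1 ≤ p := by exact_mod_cast hadm
  have h2 : 1 / (p : ℝ) ≤ 1 - (nuH (insert e S) p : ℝ) / p := by
    rw [div_le_iff₀ hp0]
    have : (1 - (nuH (insert e S) p : ℝ) / p) * p = p - nuH (insert e S) p := by field_simp
    rw [this]
    linarith
  have h3 : 1 / (M : ℝ) ≤ 1 / p := one_div_le_one_div_of_le hp0 hpM
  have h4 : (0 : ℝ) ≤ 1 - 1 / p := by
    have : (1 : ℝ) / p ≤ 1 / 2 := one_div_le_one_div_of_le (by norm_num) hp2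
    linarith
  have h5 : (1 : ℝ) - 1 / p ≤ 1 := by
    have : (0 : ℝ) ≤ 1 / p := by positivity
    linarith
  have h6 : 1 - (nuH S p : ℝ) / p ≤ 1 := by
    have : (0 : ℝ) ≤ (nuH S p : ℝ) / p := by positivity
    linarith
  have h7 : (1 - (nuH S p : ℝ) / p) * (1 - 1 / p) ≤ 1 := by
    calc (1 - (nuH S p : ℝ) / p) * (1 - 1 / p) ≤ 1 * (1 - 1 / p) :=
          mul_le_mul_of_nonneg_right h6 h4
      _ ≤ 1 := by linarith
  calc 1 / (M : ℝ) * ((1 - (nuH S p : ℝ) / p) * (1 - 1 / p)) ≤ 1 / (M : ℝ) * 1 :=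
        mul_le_mul_of_nonneg_left h7 (by positivity)
    _ ≤ _ := by linarith

theorem LO_large {S : Finset ℤ} {e : ℤ} {p j : ℕ} (hS : S.card ≤ j) (hp : 8 * (j + 1) < p) :
    (1 - 4 * ((j : ℝ) + 1) / (p : ℝ) ^ 2) * ((1 - (nuH S p : ℝ) / p) * (1 - 1 / p)) ≤
      1 - (nuH (insert e S) p : ℝ) / p := by
  have hp8 : 8 * ((j : ℝ) + 1) < p := by exact_mod_cast hp
  have hj0 : (0 : ℝ) ≤ j := by positivity
  have hp0 : (0 : ℝ) < p := by linarith
  have hν : (nuH S p : ℝ) ≤ j := by exact_mod_cast (LO_nu_card S p).trans hS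
  have hν0 : (0 : ℝ) ≤ nuH S p := by positivity
  have hν' : (nuH (insert e S) p : ℝ) ≤ nuH S p + 1 := by exact_mod_cast LO_nu S e p
  obtain ⟨u, hu⟩ : ∃ u : ℝ, u = 1 / (p : ℝ) := ⟨_, rfl⟩
  have hu0 : 0 < u := by rw [hu]; positivity
  have hup : u * (8 * ((j : ℝ) + 1)) ≤ 1 := by
    rw [hu, one_div, inv_mul_le_iff₀ hp0]
    linarith
  have e1 : (nuH S p : ℝ) / p = nuH S p * u := by rw [hu]; ring
  have e2 : (nuH (insert e S) p : ℝ) / p = nuH (insert e S) p * u := by rw [hu]; ring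
  have e3 : 4 * ((j : ℝ) + 1) / (p : ℝ) ^ 2 = 4 * ((j : ℝ) + 1) * u ^ 2 := by rw [hu]; ring
  rw [e1, e2, e3, ← hu]
  have h1 : (nuH S p : ℝ) * u ≤ 1 / 8 := by nlinarith
  have h2 : u ≤ 1 / 8 := by nlinarith
  have h3 : (3 : ℝ) / 4 ≤ (1 - nuH S p * u) * (1 - u) := by nlinarith [mul_nonneg hν0 hu0.le]
  have h4 : (nuH S p : ℝ) * u ^ 2 ≤ 4 * ((j : ℝ) + 1) * u ^ 2 * ((1 - nuH S p * u) * (1 - u)) := by
    have h5 : (nuH S p : ℝ) * u ^ 2 ≤ 4 * ((j : ℝ) + 1) * u ^ 2 * (3 / 4) := by nlinarith [sq_nonneg u]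
    exact h5.trans (mul_le_mul_of_nonneg_left h3 (by positivity))
  nlinarith [mul_le_mul_of_nonneg_right hν' hu0.le]

theorem LO_prod (M C : ℝ) (m : ℕ) (hm : M = m) (hm0 : 0 < m) (hC : 0 ≤ C) (hCM : 2 * C ≤ M)
    (T : Finset ℕ) (hT : ∀ p ∈ T, 1 ≤ p) :
    (1 / M) ^ m * (1 / 2) ≤ ∏ p ∈ T, (if p ≤ m then 1 / M else 1 - C / (p : ℝ) ^ 2) := by
  have hM1 : (1 : ℝ) ≤ M := by rw [hm]; exact_mod_cast hm0
  rw [Finset.prod_ite]
  have h1 : (1 / M) ^ m ≤ ∏ p ∈ T.filter (fun p => p ≤ m), (1 / M) := by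
    rw [Finset.prod_const]
    apply pow_le_pow_of_le_one (by positivity)
    · rw [div_le_one (by linarith)]; exact hM1
    · have : T.filter (fun p => p ≤ m) ⊆ Finset.Icc 1 m := by
        intro p hp
        rw [Finset.mem_filter] at hp
        exact Finset.mem_Icc.2 ⟨hT p hp.1, hp.2⟩
      have h := Finset.card_le_card this
      rwa [Nat.card_Icc, Nat.add_sub_cancel] at h
  have hbig : ∀ p ∈ T.filter (fun p => ¬ p ≤ m), m < p := by
    intro p hp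
    exact not_le.1 (Finset.mem_filter.1 hp).2
  have h2 : 1 - ∑ p ∈ T.filter (fun p => ¬ p ≤ m), C / (p : ℝ) ^ 2 ≤
      ∏ p ∈ T.filter (fun p => ¬ p ≤ m), (1 - C / (p : ℝ) ^ 2) := by
    apply one_sub_sum_le_prod
    · intro p _
      positivity
    · intro p hp
      have h3 : (m : ℝ) < p := by exact_mod_cast hbig p hp
      rw [← hm] at h3
      rw [div_le_one (by nlinarith)]
      nlinarith
    · intro p _
      exact le_rfl
  have h3 : ∑ p ∈ T.filter (fun p => ¬ p ≤ m), C / (p : ℝ) ^ 2 ≤ 1 / 2 := by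
    have h4 := sum_inv_sq_le hm0 (T.filter (fun p => ¬ p ≤ m)) hbig
    have h5 : ∑ p ∈ T.filter (fun p => ¬ p ≤ m), C / (p : ℝ) ^ 2 =
        C / 24 * ∑ p ∈ T.filter (fun p => ¬ p ≤ m), (24 : ℝ) / (p : ℝ) ^ 2 := by
      rw [Finset.mul_sum]
      apply Finset.sum_congr rfl
      intro p _
      ring
    rw [h5]
    calc C / 24 * ∑ p ∈ T.filter (fun p => ¬ p ≤ m), (24 : ℝ) / (p : ℝ) ^ 2 ≤ C / 24 * (24 / (m : ℝ)) :=
          mul_le_mul_of_nonneg_left h4 (by positivity)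
      _ = C / M := by rw [hm]; ring
      _ ≤ 1 / 2 := by rw [div_le_iff₀ (by linarith)]; linarith
  apply mul_le_mul h1 (by linarith) (by norm_num)
  exact Finset.prod_nonneg fun p _ => by positivity

theorem LO (j : ℕ) : ∃ c : ℝ, 0 < c ∧ ∀ (x : ℝ) (S : Finset ℤ), S.card ≤ j → ∀ e : ℤ, e ∉ S → adm (insert e S) →
    c * sW x S ≤ sW x (insert e S) := by
  obtain ⟨m, hm⟩ : ∃ m : ℕ, m = 8 * (j + 1) := ⟨_, rfl⟩
  have hm0 : 0 < m := by omega
  have hmR : (m : ℝ) = 8 * ((j : ℝ) + 1) := by rw [hm]; push_cast; ring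
  have hm0R : (0 : ℝ) < m := by exact_mod_cast hm0
  refine ⟨(1 / (m : ℝ)) ^ m * (1 / 2), by positivity, ?_⟩
  intro x S hS e he hadm
  rw [sW_eq_Sy, sW_eq_Sy, Sy_eq, Sy_eq]
  have h1 : ∏ p ∈ PP (yy x), ((if p ≤ m then 1 / (m : ℝ) else 1 - (4 * ((j : ℝ) + 1)) / (p : ℝ) ^ 2) * loc S p) ≤
      ∏ p ∈ PP (yy x), loc (insert e S) p := by
    apply Finset.prod_le_prod
    · intro p hp
      have hpp := (mem_PP.mp hp).2
      apply mul_nonneg _ (loc_nonneg S hpp)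
      split_ifs with h
      · positivity
      · have h3 : (m : ℝ) < p := by exact_mod_cast not_le.1 h
        have hj0 : (0 : ℝ) ≤ j := by positivity
        rw [sub_nonneg, div_le_one (by nlinarith)]
        nlinarith
    · intro p hp
      have hpp := (mem_PP.mp hp).2
      split_ifs with h
      · exact LO_loc he hpp (LO_small hpp h (hadm p hpp))
      · exact LO_loc he hpp (LO_large hS (by omega))
  rw [Finset.prod_mul_distrib] at h1
  have h2 := LO_prod (m : ℝ) (4 * ((j : ℝ) + 1)) m rfl hm0 (by positivity) (by rw [hmR]; linarith)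
    (PP (yy x)) (fun p hp => (mem_PP.mp hp).2.one_le)
  refine le_trans (mul_le_mul_of_nonneg_right h2 ?_) h1
  exact Finset.prod_nonneg fun p hp => loc_nonneg S (mem_PP.mp hp).2

end Pool.Agent.H96.FD
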