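import Pool.Agent.H96.FD.BD
import Pool.Agent.H96.FD.LO
import Pool.Agent.H96.FD.OF
import Pool.Agent.H96.AS.TS

/-!
# FNa: almost all `d` for fixed `d`, weighted form

`L = log x`, `N = ⌊x⌋₊ + 1`, `w = yy x`, `S = {a, b}`, `D ⊆ Icc 1 H \ {a,b}`, `T = ∑_{e∈D} sW x {a,b,e}`.
* `FN`: compare `TS` (`Pool/Agent/H96/AS/TS.lean`; same choice of the parameters with `j = 2`). 1. `η ∈ (0,1/20]` with `q (q + η) ≤ 16 + ε/2`, `q = 1/(1/4 - η)`. 2. `m` with `4 ≤ m`, `6 ≤ 10 (m+1) η`. 3. `b ≥ b₁` (`Num m`) by `TS_choose m 2 D₀ (ε/2)` with `D₀ = q * 2^6`. 4. `C` from `BT (dlm m b) (1/4-η)`, `C₁` from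
  `OF m b 2 η C`, `c` from `LO 2`, `K ≥ 1` with `C₁/(c K) ≤ (1/2)^b`. Given `x`, `H`, `a`, `b`, `D`, `s`: `V` (`Num`), `β` (`BT`). For `e ∈ D`: `La x (n-e) ≤ q Mm(n-e) V(n-e) β(n-e)` (`MJ`), so `∑_e s e ∑_n La La La ≤ q ∑_e s e ∑_n La La Mm(n-e) + q * (error)`, error `= ∑_n G n ∑_e s e Mm (Vβ - 1)(n-e)` with
  `G n = La(n-a) La(n-b)`, `0 ≤ G ≤ A₀ ∏ Mm (1 + V)`, `A₀ = (1/dlm m b)^2 ≤ (1 + 1/dlm m b)^2` (`BMU_maj`). Main part: `BDs` with `ε := η`: `≤ q (q + η) N ∑ s e sW x {a,b,e}`. Error: `OF`, `insert e {a,b} = {a,b,e}` (reorder), and `C₁ L sW x S ≤ (1/2)^b T` because `T ≥ c |D| sW x S ≥ c K L sW x S` (`LO`; `adm` from `hadm`):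
  `≤ A₀ 2^6 √(2 (1/2)^b) T N`.
-/

set_option autoImplicit false

namespace Pool.Agent.H96.FD

open Finset Pool.Agent.H17 Pool.Agent.H6.MF Pool.Agent.H6.MB Pool.Agent.H12.DM Pool.Agent.H6.AE Pool.Agent.H96.AE Pool.Agent.H96.AS

private theorem FNa_par (ε : ℝ) (hε : 0 < ε) : ∃ t : ℝ, 0 < t ∧ t ≤ 1 / 20 ∧
    (1 / (1 / 4 - t)) * (1 / (1 / 4 - t) + t) ≤ 16 + ε / 2 := by
  have h0 : Filter.Tendsto (fun t : ℝ => (1 / (1 / 4 - t))) (nhds 0) (nhds (1 / (1 / 4 - 0))) := by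
    apply Filter.Tendsto.div tendsto_const_nhds
    · exact Filter.Tendsto.sub tendsto_const_nhds Filter.tendsto_id
    · norm_num
  have h1 : Filter.Tendsto (fun t : ℝ => (1 / (1 / 4 - t)) * (1 / (1 / 4 - t) + t)) (nhds 0)
      (nhds ((1 / (1 / 4 - 0)) * (1 / (1 / 4 - 0) + 0))) :=
    h0.mul (h0.add Filter.tendsto_id)
  have h2 : (1 / (1 / 4 - 0) : ℝ) * (1 / (1 / 4 - 0) + 0) = 16 := by norm_num
  rw [h2] at h1
  have h3 := h1.eventually (ge_mem_nhds (show (16 : ℝ) < 16 + ε / 2 by linarith))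
  obtain ⟨d, hd0, hd⟩ := Metric.eventually_nhds_iff.1 h3
  refine ⟨min (d / 2) (1 / 20), by positivity, min_le_right _ _, ?_⟩
  apply hd
  rw [Real.dist_eq, sub_zero, abs_of_pos (by positivity)]
  exact (min_le_left _ _).trans_lt (by linarith)

private theorem FNa_ins (a b e : ℤ) : (insert e {a, b} : Finset ℤ) = {a, b, e} := by
  ext y
  simp only [Finset.mem_insert, Finset.mem_singleton]
  tauto

theorem FN (ε : ℝ) (hε : 0 < ε) : ∃ K X : ℝ, 1 ≤ K ∧ ∀ x : ℝ, X ≤ x → ∀ H : ℕ, (H : ℝ) ≤ (Real.log x) ^ 2 →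
    ∀ a ∈ Finset.Icc 1 (H : ℤ), ∀ b ∈ Finset.Icc 1 (H : ℤ), a ≠ b →
    ∀ D : Finset ℤ, D ⊆ Finset.Icc 1 (H : ℤ) \ {a, b} → K * Real.log x ≤ (D.card : ℝ) → (∀ e ∈ D, adm {a, b, e}) →
    ∀ s : ℤ → ℝ, (∀ e, 0 ≤ s e ∧ s e ≤ 1) →
    ∑ e ∈ D, s e * ∑ n ∈ JJ x H, La x ((n : ℤ) - a) * La x ((n : ℤ) - b) * La x ((n : ℤ) - e) ≤
      ((⌊x⌋₊ : ℝ) + 1) * ((16 + ε / 2) * ∑ e ∈ D, s e * sW x {a, b, e} + (ε / 2) * ∑ e ∈ D, sW x {a, b, e}) := by
  obtain ⟨η, hη0, hη1, hηj⟩ := FNa_par ε hε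
  set q : ℝ := 1 / (1 / 4 - η) with hq
  have hθ0 : 0 < 1 / 4 - η := by linarith
  have hq0 : 0 < q := by
    rw [hq]
    positivity
  obtain ⟨m, hm1, hm2⟩ : ∃ m : ℕ, 2 + 2 ≤ m ∧ ((2 : ℕ) : ℝ) + 4 ≤ 10 * ((m : ℝ) + 1) * η := by
    refine ⟨max (2 + 2) ⌈(((2 : ℕ) : ℝ) + 4) / (10 * η)⌉₊, le_max_left _ _, ?_⟩
    have h1 : (((2 : ℕ) : ℝ) + 4) / (10 * η) ≤
        ((max (2 + 2) ⌈(((2 : ℕ) : ℝ) + 4) / (10 * η)⌉₊ : ℕ) : ℝ) :=
      (Nat.le_ceil _).trans (by exact_mod_cast le_max_right _ _)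
    rw [div_le_iff₀ (by positivity)] at h1
    nlinarith
  obtain ⟨b₁, hNum⟩ := Num m
  obtain ⟨b, hb, hbD⟩ := TS_choose m 2 (q * 2 ^ 6) (ε / 2) (by positivity) (by linarith) b₁
  obtain ⟨X₁, hV⟩ := hNum b hb
  set δ : ℝ := dlm m b with hδdef
  have hδ0 : 0 < δ := dlm_pos m b
  have hδ1 : δ ≤ 1 / 320 := dlm_le m b
  have hδθ : δ < 1 / 4 - η := by linarith
  obtain ⟨C, X₂, hC0, hBT⟩ := BT δ (1 / 4 - η) hδ0 hδθ (by linarith)
  obtain ⟨C₁, X₃, hC1, hOF⟩ := OF m b 2 η C hη0 hη1 hm1 hm2 hC0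
  obtain ⟨X₄, hMJ⟩ := MJ m b (1 / 4 - η) C hδθ (by linarith)
  obtain ⟨X₅, hBM⟩ := BMU_maj m b
  obtain ⟨X₆, hBD⟩ := BDs η η hη0 hη1 hη0
  obtain ⟨c, hc0, hLO⟩ := LO 2
  set K : ℝ := max 1 (C₁ * 2 ^ b / c) with hK
  have hK1 : 1 ≤ K := le_max_left _ _
  have hKC : C₁ * 2 ^ b / c ≤ K := le_max_right _ _
  refine ⟨K, max X₁ (max X₂ (max X₃ (max X₄ (max X₅ (max X₆ (Real.exp 1)))))), hK1,
    fun x hx H hH a ha b' hb' hab D hD hcard hadm s hs => ?_⟩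
  simp only [max_le_iff] at hx
  obtain ⟨hx1, hx2, hx3, hx4, hx5, hx6, hx7⟩ := hx
  have hx0 : 0 < x := (Real.exp_pos 1).trans_le hx7
  have hxx : 1 ≤ x := by
    have h1 : (1 : ℝ) ≤ Real.exp 1 := Real.one_le_exp (by norm_num)
    linarith
  have hL1 : 1 ≤ Real.log x := by
    rw [Real.le_log_iff_exp_le hx0]
    exact hx7
  have hL0 : 0 < Real.log x := by linarith
  obtain ⟨V, hVg⟩ := hV x hx1
  obtain ⟨β, hβ⟩ := hBT x hx2
  set N : ℝ := (⌊x⌋₊ : ℝ) + 1 with hN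
  have hN0 : 0 ≤ N := by positivity
  have heD : ∀ e ∈ D, e ∉ ({a, b'} : Finset ℤ) := fun e he => (Finset.mem_sdiff.1 (hD he)).2
  have hene : ∀ e ∈ D, e ≠ a ∧ e ≠ b' := by
    intro e he
    have h1 := heD e he
    simp only [Finset.mem_insert, Finset.mem_singleton, not_or] at h1
    exact h1
  set T : ℝ := ∑ e ∈ D, sW x {a, b', e} with hT
  have hT0 : 0 ≤ T := Finset.sum_nonneg fun e _ => sW_nonneg x _
  have hT' : ∑ e ∈ D, sW x (insert e {a, b'}) = T :=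
    Finset.sum_congr rfl fun e _ => by rw [FNa_ins]
  have hSc : ({a, b'} : Finset ℤ).card ≤ 2 := Finset.card_le_two
  have hS0 : 0 ≤ sW x {a, b'} := sW_nonneg x _
  -- the lower bound for `T`
  have hTlow : C₁ * Real.log x * sW x {a, b'} ≤ (1 / 2 : ℝ) ^ b * T := by
    have h1 : (D.card : ℝ) * (c * sW x {a, b'}) ≤ T := by
      rw [← nsmul_eq_mul, ← Finset.sum_const]
      refine Finset.sum_le_sum fun e he => ?_
      have h2 := hLO x {a, b'} hSc e (heD e he) (by rw [FNa_ins]; exact hadm e he)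
      rw [FNa_ins] at h2
      exact h2
    have h3 : C₁ * 2 ^ b ≤ K * c := by
      rw [div_le_iff₀ hc0] at hKC
      exact hKC
    have h4 : C₁ * 2 ^ b * Real.log x * sW x {a, b'} ≤ T := by
      refine le_trans ?_ h1
      have h5 : K * Real.log x * (c * sW x {a, b'}) ≤ (D.card : ℝ) * (c * sW x {a, b'}) :=
        mul_le_mul_of_nonneg_right hcard (by positivity)
      refine le_trans ?_ h5
      have h6 : C₁ * 2 ^ b * (Real.log x * sW x {a, b'}) ≤ K * c * (Real.log x * sW x {a, b'}) :=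
        mul_le_mul_of_nonneg_right h3 (by positivity)
      calc C₁ * 2 ^ b * Real.log x * sW x {a, b'} = C₁ * 2 ^ b * (Real.log x * sW x {a, b'}) := by ring
        _ ≤ _ := h6
        _ = _ := by ring
    have h7 : (1 / 2 : ℝ) ^ b * 2 ^ b = 1 := by
      rw [← mul_pow]
      norm_num
    calc C₁ * Real.log x * sW x {a, b'} = ((1 / 2 : ℝ) ^ b * 2 ^ b) * (C₁ * Real.log x * sW x {a, b'}) := by
          rw [h7, one_mul]
      _ = (1 / 2 : ℝ) ^ b * (C₁ * 2 ^ b * Real.log x * sW x {a, b'}) := by ring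
      _ ≤ _ := mul_le_mul_of_nonneg_left h4 (by positivity)
  -- the error term
  set A₀ : ℝ := (1 + 1 / δ) ^ 2 with hA0
  have hA00 : 0 ≤ A₀ := by positivity
  set G : ℤ → ℝ := fun n => La x (n - a) * La x (n - b') with hG
  have hG0 : ∀ n, 0 ≤ G n := fun n => mul_nonneg (La_nonneg hxx _) (La_nonneg hxx _)
  have hLV : ∀ n : ℤ, La x n ≤ (1 + 1 / δ) * (Mm (yy x) n * (1 + V n)) := by
    intro n
    have h3 := hBM x hx5 V hVg n
    have h4 := Mm_nonneg (yy x) n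
    have h5 := hVg.1 n
    have h6 : 0 ≤ 1 / δ := by positivity
    have h7 := mul_nonneg h4 h5
    have h8 := mul_nonneg h6 h4
    nlinarith
  have hGb : ∀ n, |G n| ≤ A₀ * ∏ c ∈ ({a, b'} : Finset ℤ), (Mm (yy x) (n - c) * (1 + V (n - c))) := by
    intro n
    rw [abs_of_nonneg (hG0 n), Finset.prod_pair hab, hA0]
    calc G n ≤ ((1 + 1 / δ) * (Mm (yy x) (n - a) * (1 + V (n - a)))) *
          ((1 + 1 / δ) * (Mm (yy x) (n - b') * (1 + V (n - b')))) :=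
          mul_le_mul (hLV _) (hLV _) (La_nonneg hxx _) ((La_nonneg hxx _).trans (hLV _))
      _ = _ := by ring
  have hSI : ({a, b'} : Finset ℤ) ⊆ Finset.Icc 1 (H : ℤ) := by
    intro y hy
    rcases Finset.mem_insert.1 hy with rfl | hy
    · exact ha
    · rw [Finset.mem_singleton.1 hy]
      exact hb'
  have hErr := hOF x hx3 V hVg β hβ H hH {a, b'} hSI hSc D hD A₀ hA00 G hGb s hs
  rw [hT'] at hErr
  set E : ℝ := ∑ n ∈ JJ x H, G (n : ℤ) *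
    ∑ e ∈ D, s e * (Mm (yy x) ((n : ℤ) - e) * (V ((n : ℤ) - e) * β ((n : ℤ) - e) - 1)) with hE
  have hsq : Real.sqrt (((1 / 2 : ℝ) ^ b * T + C₁ * Real.log x * sW x {a, b'}) * T) ≤
      Real.sqrt (2 * (1 / 2 : ℝ) ^ b) * T := by
    have h1 : Real.sqrt (2 * (1 / 2 : ℝ) ^ b) * T = Real.sqrt (2 * (1 / 2 : ℝ) ^ b * T ^ 2) := by
      rw [Real.sqrt_mul (by positivity : (0 : ℝ) ≤ 2 * (1 / 2 : ℝ) ^ b) (T ^ 2), Real.sqrt_sq hT0]
    rw [h1]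
    apply Real.sqrt_le_sqrt
    have h2 : ((1 / 2 : ℝ) ^ b * T + C₁ * Real.log x * sW x {a, b'}) * T ≤
        ((1 / 2 : ℝ) ^ b * T + (1 / 2 : ℝ) ^ b * T) * T :=
      mul_le_mul_of_nonneg_right (by linarith) hT0
    refine h2.trans (le_of_eq ?_)
    ring
  have hEb : q * E ≤ N * (ε / 2 * T) := by
    have h1 : E ≤ A₀ * 2 ^ (2 + 4) * (Real.sqrt (2 * (1 / 2 : ℝ) ^ b) * T) * N := by
      refine (le_abs_self _).trans (hErr.trans ?_)
      exact mul_le_mul_of_nonneg_right (mul_le_mul_of_nonneg_left hsq (by positivity)) hN0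
    calc q * E ≤ q * (A₀ * 2 ^ (2 + 4) * (Real.sqrt (2 * (1 / 2 : ℝ) ^ b) * T) * N) :=
          mul_le_mul_of_nonneg_left h1 hq0.le
      _ = (q * 2 ^ 6 * A₀ * Real.sqrt (2 * (1 / 2 : ℝ) ^ b)) * (T * N) := by ring
      _ ≤ ε / 2 * (T * N) := mul_le_mul_of_nonneg_right hbD (by positivity)
      _ = _ := by ring
  -- the main term
  have hstep : ∑ e ∈ D, s e * ∑ n ∈ JJ x H, La x ((n : ℤ) - a) * La x ((n : ℤ) - b') * La x ((n : ℤ) - e) ≤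
      q * (∑ e ∈ D, s e * ∑ n ∈ JJ x H,
        La x ((n : ℤ) - a) * La x ((n : ℤ) - b') * Mm (yy x) ((n : ℤ) - e)) + q * E := by
    have hE2 : E = ∑ e ∈ D, s e * ∑ n ∈ JJ x H, G (n : ℤ) *
        (Mm (yy x) ((n : ℤ) - e) * (V ((n : ℤ) - e) * β ((n : ℤ) - e) - 1)) := by
      rw [hE]
      simp only [Finset.mul_sum]
      rw [Finset.sum_comm]
      refine Finset.sum_congr rfl fun e _ => Finset.sum_congr rfl fun n _ => ?_
      ring
    rw [hE2, ← mul_add, ← Finset.sum_add_distrib, Finset.mul_sum]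
    refine Finset.sum_le_sum fun e _ => ?_
    rw [← mul_add, ← Finset.sum_add_distrib, mul_left_comm, Finset.mul_sum (s := JJ x H) (a := q)]
    refine mul_le_mul_of_nonneg_left (Finset.sum_le_sum fun n _ => ?_) (hs e).1
    have h1 := hMJ x hx4 V hVg β hβ ((n : ℤ) - e)
    rw [← hq] at h1
    have h2 := mul_le_mul_of_nonneg_left h1 (hG0 (n : ℤ))
    refine h2.trans (le_of_eq ?_)
    simp only [hG]
    ring
  have hmain : ∑ e ∈ D, s e * ∑ n ∈ JJ x H,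
        La x ((n : ℤ) - a) * La x ((n : ℤ) - b') * Mm (yy x) ((n : ℤ) - e) ≤
      (q + η) * N * ∑ e ∈ D, s e * sW x {a, b', e} := by
    rw [Finset.mul_sum]
    refine Finset.sum_le_sum fun e he => ?_
    have h1 := hBD x hx6 H hH a ha b' hb' hab e (hene e he).1 (hene e he).2
    have h2 := mul_le_mul_of_nonneg_left h1 (hs e).1
    refine h2.trans (le_of_eq ?_)
    ring
  have hSs0 : 0 ≤ ∑ e ∈ D, s e * sW x {a, b', e} :=
    Finset.sum_nonneg fun e _ => mul_nonneg (hs e).1 (sW_nonneg x _)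
  refine hstep.trans ?_
  have p1 : q * (∑ e ∈ D, s e * ∑ n ∈ JJ x H,
        La x ((n : ℤ) - a) * La x ((n : ℤ) - b') * Mm (yy x) ((n : ℤ) - e)) ≤
      N * ((16 + ε / 2) * ∑ e ∈ D, s e * sW x {a, b', e}) := by
    calc q * (∑ e ∈ D, s e * ∑ n ∈ JJ x H,
        La x ((n : ℤ) - a) * La x ((n : ℤ) - b') * Mm (yy x) ((n : ℤ) - e))
        ≤ q * ((q + η) * N * ∑ e ∈ D, s e * sW x {a, b', e}) := mul_le_mul_of_nonneg_left hmain hq0.le
      _ = (q * (q + η)) * (N * ∑ e ∈ D, s e * sW x {a, b', e}) := by ring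
      _ ≤ (16 + ε / 2) * (N * ∑ e ∈ D, s e * sW x {a, b', e}) :=
          mul_le_mul_of_nonneg_right hηj (by positivity)
      _ = _ := by ring
  calc _ ≤ N * ((16 + ε / 2) * ∑ e ∈ D, s e * sW x {a, b', e}) + N * (ε / 2 * T) := add_le_add p1 hEb
    _ = _ := by ring

end Pool.Agent.H96.FD
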