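import Pool.Agent.H96.FD.FNb

/-!
# FNc: for every `d`, all but `K log x` of the `d ≤ log² x` satisfy `R ≤ 16 + ε`

`L = log x`, `N = ⌊x⌋₊ + 1`, `w = yy x`, `S = {a, b}`, `D ⊆ Icc 1 H \ {a,b}`, `T = ∑_{e∈D} sW x {a,b,e}`.
* `FN_line`: let `x` be large, `x' = exp √(L² + 1)`, `L' = log x' = √(L²+1)`, so `L'² = L² + 1`, `x ≤ x' ≤ (1+κ) x` (`L' - L ≤ 1/(2L)`), `H = ⌊L²⌋₊ + 1 ≤ L'²`. For `d' ∈ [1, L²]` put `a = 1`, `b = d' + 1` and `D = {d + 1 : d bad}`, bad: `d ∈ Icc 1 ⌊L²⌋₊`, `d ≠ d'`, `sing {0,d',d} ≠ 0`,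
  `(16+ε) sing x/L³ < cnt x {0,d',d}`. If the number of bad `d` is `> K L`, with `K ≥ 2 K'`, it is `≥ K' L'`, and `FN_max` at `x'` with `ε' = ε/2` gives `∑_D (L'³ cnt x' /x' - 16 sing) ≤ (ε/2) ∑_D sing` — but for bad `d`: `cnt x' {1,d'+1,d+1} ≥ cnt x {0,d',d}` up to `1` (the shift `n ↦ n + 1`, `⌊x'⌋ ≥ ⌊x⌋ + 1`, as `x' - x ≥ 1`),
  and `L'³/x' ≥ (1-κ) L³/x`, so each summand is `≥ ((1-κ)(16+ε) - 16) sing > (ε/2) sing`: contradiction as `∑_D sing > 0`. `sing` is translation invariant (`sing_tr` or `loc_tr`).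
-/

set_option autoImplicit false

namespace Pool.Agent.H96.FD

open Finset Pool.Agent.H17 Pool.Agent.H6.MF Pool.Agent.H6.MB Pool.Agent.H12.DM Pool.Agent.H6.AE Pool.Agent.H96.AE Pool.Agent.H96.AS

private lemma FNc_cnt {x x' : ℝ} (h : ⌊x⌋₊ + 1 ≤ ⌊x'⌋₊) (s : Finset ℤ) :
    cnt x s ≤ cnt x' (tr s 1) := by
  unfold cnt
  refine Finset.card_le_card_of_injOn (fun n => n + 1) ?_ ?_
  · intro n hn
    have hn' := Finset.mem_filter.1 (Finset.mem_coe.1 hn)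
    refine Finset.mem_coe.2 (Finset.mem_filter.2 ⟨?_, ?_⟩)
    · have := Finset.mem_range.1 hn'.1
      refine Finset.mem_range.2 ?_
      show n + 1 < ⌊x'⌋₊ + 1
      omega
    · intro t ht
      unfold tr at ht
      obtain ⟨u, hu, rfl⟩ := Finset.mem_image.1 ht
      have e : ((n + 1 : ℕ) : ℤ) - (u + 1) = (n : ℤ) - u := by push_cast; ring
      rw [e]
      exact hn'.2 u hu
  · intro a _ b _ hab
    have hab' : a + 1 = b + 1 := hab
    omega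

private lemma FNc_tr (d' d : ℤ) : ({1, d' + 1, d + 1} : Finset ℤ) = tr {0, d', d} 1 := by
  unfold tr
  rw [Finset.image_insert, Finset.image_insert, Finset.image_singleton, zero_add]

private lemma FNc_L {κ L : ℝ} (hκ : 0 < κ) (hL : 4 ≤ L) (hL2 : 1 / (2 * κ) ≤ L) :
    L ≤ Real.sqrt (L ^ 2 + 1) ∧ Real.sqrt (L ^ 2 + 1) ≤ 2 * L ∧ Real.sqrt (L ^ 2 + 1) - L ≤ κ ∧
      1 ≤ 3 * L * (Real.sqrt (L ^ 2 + 1) - L) := by
  have h0 : (0 : ℝ) ≤ L ^ 2 + 1 := by positivity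
  have hsq : Real.sqrt (L ^ 2 + 1) ^ 2 = L ^ 2 + 1 := Real.sq_sqrt h0
  obtain ⟨M, hM⟩ : ∃ M, M = Real.sqrt (L ^ 2 + 1) := ⟨_, rfl⟩
  rw [← hM] at hsq ⊢
  have hM0 : 0 ≤ M := by rw [hM]; exact Real.sqrt_nonneg _
  have h1 : L ≤ M := by nlinarith
  have h2 : M ≤ 2 * L := by nlinarith
  have h3 : (M - L) * (M + L) = 1 := by nlinarith
  rw [div_le_iff₀ (by positivity)] at hL2
  refine ⟨h1, h2, ?_, ?_⟩
  · have h4 : (M - L) * (2 * L) ≤ 1 := by nlinarith [mul_nonneg (sub_nonneg.2 h1) (sub_nonneg.2 h1)]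
    by_contra hc
    push Not at hc
    have h5 : κ * (2 * L) < (M - L) * (2 * L) := mul_lt_mul_of_pos_right hc (by linarith)
    nlinarith
  · nlinarith [mul_nonneg (sub_nonneg.2 h1) (sub_nonneg.2 h2)]

theorem FN_line (ε : ℝ) (hε : 0 < ε) : ∃ K X : ℝ, ∀ x : ℝ, X ≤ x → ∀ d' : ℤ, 1 ≤ d' → (d' : ℝ) ≤ (Real.log x) ^ 2 →
    (((Finset.Icc 1 ⌊(Real.log x) ^ 2⌋₊).filter (fun d : ℕ => (d : ℤ) ≠ d' ∧ sing {0, d', (d : ℤ)} ≠ 0 ∧
      (16 + ε) * (sing {0, d', (d : ℤ)} * x / (Real.log x) ^ 3) < (cnt x {0, d', (d : ℤ)} : ℝ))).card : ℝ)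
      ≤ K * Real.log x := by
  obtain ⟨K', X', hK', h⟩ := FN_max (ε / 4) (by linarith)
  obtain ⟨κ, hκe⟩ : ∃ κ : ℝ, κ = ε / (2 * (16 + ε)) := ⟨_, rfl⟩
  have hκ : 0 < κ := by rw [hκe]; positivity
  have hκm : κ * (16 + ε) = ε / 2 := by
    rw [hκe]
    field_simp
  refine ⟨2 * K', max X' (Real.exp (max 4 (1 / (2 * κ)))), fun x hx d' hd1 hd2 => ?_⟩
  have hxX : X' ≤ x := (le_max_left _ _).trans hx
  have hxe : Real.exp (max 4 (1 / (2 * κ))) ≤ x := (le_max_right _ _).trans hx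
  have hx0 : 0 < x := lt_of_lt_of_le (Real.exp_pos _) hxe
  have hLm : max 4 (1 / (2 * κ)) ≤ Real.log x := by
    rw [Real.le_log_iff_exp_le hx0]
    exact hxe
  obtain ⟨L, hL⟩ : ∃ L, L = Real.log x := ⟨_, rfl⟩
  rw [← hL] at hLm hd2 ⊢
  have hL4 : 4 ≤ L := (le_max_left _ _).trans hLm
  have hLk : 1 / (2 * κ) ≤ L := (le_max_right _ _).trans hLm
  have hxL : x = Real.exp L := by rw [hL, Real.exp_log hx0]
  obtain ⟨hM1, hM2, hM3, hM4⟩ := FNc_L hκ hL4 hLk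
  obtain ⟨M, hM⟩ : ∃ M, M = Real.sqrt (L ^ 2 + 1) := ⟨_, rfl⟩
  rw [← hM] at hM1 hM2 hM3 hM4
  have hMsq : M ^ 2 = L ^ 2 + 1 := by rw [hM]; exact Real.sq_sqrt (by positivity)
  obtain ⟨x', hx'⟩ : ∃ x', x' = Real.exp M := ⟨_, rfl⟩
  have hlog' : Real.log x' = M := by rw [hx', Real.log_exp]
  have hx'0 : 0 < x' := by rw [hx']; exact Real.exp_pos _
  have hratio : x' = x * Real.exp (M - L) := by
    rw [hx', hxL, ← Real.exp_add]
    congr 1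
    ring
  have hx1 : x + 1 ≤ x' := by
    have h1 : M - L + 1 ≤ Real.exp (M - L) := Real.add_one_le_exp _
    have h2 : 1 + L + L ^ 2 / 2 ≤ x := by
      rw [hxL]
      exact Real.quadratic_le_exp_of_nonneg (by linarith)
    have h3 : 3 * L ≤ x := by nlinarith
    have h4 : 1 ≤ x * (M - L) := hM4.trans (mul_le_mul_of_nonneg_right h3 (by linarith))
    rw [hratio]
    nlinarith
  have hxx' : X' ≤ x' := by linarith
  have hfl : ⌊x⌋₊ + 1 ≤ ⌊x'⌋₊ := by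
    rw [← Nat.floor_add_one hx0.le]
    exact Nat.floor_le_floor hx1
  have hquo : (1 - κ) * x' ≤ x := by
    have h1 : -(M - L) + 1 ≤ Real.exp (-(M - L)) := Real.add_one_le_exp _
    have h2 : x = x' * Real.exp (-(M - L)) := by
      rw [hratio, mul_assoc, ← Real.exp_add, add_neg_cancel, Real.exp_zero, mul_one]
    calc (1 - κ) * x' ≤ Real.exp (-(M - L)) * x' :=
          mul_le_mul_of_nonneg_right (by linarith) hx'0.le
      _ = x := by rw [mul_comm, ← h2]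
  by_contra hcon
  push Not at hcon
  obtain ⟨B, hB⟩ : ∃ B : Finset ℕ, B = (Finset.Icc 1 ⌊L ^ 2⌋₊).filter
    (fun d : ℕ => (d : ℤ) ≠ d' ∧ sing {0, d', (d : ℤ)} ≠ 0 ∧
      (16 + ε) * (sing {0, d', (d : ℤ)} * x / L ^ 3) < (cnt x {0, d', (d : ℤ)} : ℝ)) := ⟨_, rfl⟩
  rw [← hB] at hcon
  have hBm : ∀ d ∈ B, (1 ≤ d ∧ d ≤ ⌊L ^ 2⌋₊) ∧ (d : ℤ) ≠ d' ∧ sing {0, d', (d : ℤ)} ≠ 0 ∧
      (16 + ε) * (sing {0, d', (d : ℤ)} * x / L ^ 3) < (cnt x {0, d', (d : ℤ)} : ℝ) := by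
    intro d hd
    rw [hB, Finset.mem_filter, Finset.mem_Icc] at hd
    exact hd
  have hd'H : d' ≤ (⌊L ^ 2⌋₊ : ℤ) := by
    have h1 : (d'.toNat : ℝ) ≤ L ^ 2 := by
      have h2 : ((d'.toNat : ℤ) : ℝ) = (d' : ℝ) := by rw [Int.toNat_of_nonneg (by omega)]
      rw [← h2] at hd2
      exact_mod_cast hd2
    have h3 := Nat.le_floor h1
    omega
  have hH : ((⌊L ^ 2⌋₊ + 1 : ℕ) : ℝ) ≤ Real.log x' ^ 2 := by
    rw [hlog', hMsq]
    push_cast
    have := Nat.floor_le (show (0 : ℝ) ≤ L ^ 2 by positivity)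
    linarith
  have hinj : Function.Injective (fun d : ℕ => (d : ℤ) + 1) := by
    intro a b hab
    have hab' : (a : ℤ) + 1 = (b : ℤ) + 1 := hab
    omega
  have hm1 : (1 : ℤ) ∈ Finset.Icc 1 ((⌊L ^ 2⌋₊ + 1 : ℕ) : ℤ) := by
    rw [Finset.mem_Icc, Nat.cast_add, Nat.cast_one]
    omega
  have hm2 : d' + 1 ∈ Finset.Icc 1 ((⌊L ^ 2⌋₊ + 1 : ℕ) : ℤ) := by
    rw [Finset.mem_Icc, Nat.cast_add, Nat.cast_one]
    omega
  have hne : (1 : ℤ) ≠ d' + 1 := by omega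
  have hkey := h x' hxx' (⌊L ^ 2⌋₊ + 1) hH 1 hm1 (d' + 1) hm2 hne
    (B.image (fun d : ℕ => (d : ℤ) + 1)) ?_ ?_ ?_
  · rw [Finset.sum_image hinj.injOn, Finset.sum_image hinj.injOn, hlog'] at hkey
    have hspos : ∀ d ∈ B, 0 < sing {1, d' + 1, (d : ℤ) + 1} := by
      intro d hd
      rw [FNc_tr, sing_tr]
      exact lt_of_le_of_ne (sing_nonneg _) (Ne.symm (hBm d hd).2.2.1)
    have hsum : 0 < ∑ d ∈ B, sing {1, d' + 1, (d : ℤ) + 1} := by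
      refine Finset.sum_pos hspos ?_
      rw [← Finset.card_pos]
      have : (0 : ℝ) < (B.card : ℝ) := lt_of_le_of_lt (by positivity) hcon
      exact_mod_cast this
    have hle : (ε / 2) * ∑ d ∈ B, sing {1, d' + 1, (d : ℤ) + 1} ≤
        ∑ d ∈ B, max 0 (M ^ 3 * (cnt x' {1, d' + 1, (d : ℤ) + 1} : ℝ) / x' -
          16 * sing {1, d' + 1, (d : ℤ) + 1}) := by
      rw [Finset.mul_sum]
      refine Finset.sum_le_sum fun d hd => ?_
      refine le_trans ?_ (le_max_right _ _)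
      have hs := hspos d hd
      obtain ⟨-, -, -, hc⟩ := hBm d hd
      have h1 : (cnt x {0, d', (d : ℤ)} : ℝ) ≤ (cnt x' {1, d' + 1, (d : ℤ) + 1} : ℝ) := by
        rw [FNc_tr]
        exact_mod_cast FNc_cnt hfl _
      have hse : sing {1, d' + 1, (d : ℤ) + 1} = sing {0, d', (d : ℤ)} := by
        rw [FNc_tr, sing_tr]
      rw [← hse] at hc
      obtain ⟨s, hsdef⟩ : ∃ s, s = sing {1, d' + 1, (d : ℤ) + 1} := ⟨_, rfl⟩
      obtain ⟨c, hcdef⟩ : ∃ c : ℝ, c = (cnt x' {1, d' + 1, (d : ℤ) + 1} : ℝ) := ⟨_, rfl⟩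
      rw [← hsdef] at hc hs ⊢
      rw [← hcdef] at h1 ⊢
      have hL0 : 0 < L := by linarith
      have hc2 : (16 + ε) * (s * x / L ^ 3) ≤ c := hc.le.trans h1
      have h2 : (16 + ε) * (s * x) ≤ c * L ^ 3 := by
        have h3 : (16 + ε) * (s * x / L ^ 3) * L ^ 3 ≤ c * L ^ 3 :=
          mul_le_mul_of_nonneg_right hc2 (by positivity)
        have h4 : (16 + ε) * (s * x / L ^ 3) * L ^ 3 = (16 + ε) * (s * x) := by
          field_simp
        linarith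
      have hc0 : 0 ≤ c := by rw [hcdef]; positivity
      have h5 : c * L ^ 3 ≤ M ^ 3 * c := by
        rw [mul_comm]
        exact mul_le_mul_of_nonneg_right (pow_le_pow_left₀ hL0.le hM1 3) hc0
      have h6 : (ε / 2 + 16 * 1) * s * x' ≤ (16 + ε) * (s * x) := by
        have h7 : (16 + ε) * s * ((1 - κ) * x') ≤ (16 + ε) * s * x :=
          mul_le_mul_of_nonneg_left hquo (by positivity)
        have h8 : (16 + ε) * s * ((1 - κ) * x') = ((16 + ε) - κ * (16 + ε)) * s * x' := by ring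
        rw [h8, hκm] at h7
        have h9 : (ε / 2 + 16 * 1) * s * x' = ((16 + ε) - ε / 2) * s * x' := by ring
        rw [h9]
        linarith
      have h10 : (ε / 2 + 16) * s ≤ M ^ 3 * c / x' := by
        rw [le_div_iff₀ hx'0]
        linarith
      linarith
    have hlt : (ε / 4) * ∑ d ∈ B, sing {1, d' + 1, (d : ℤ) + 1} <
        (ε / 2) * ∑ d ∈ B, sing {1, d' + 1, (d : ℤ) + 1} :=
      mul_lt_mul_of_pos_right (by linarith) hsum
    linarith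
  · intro e he
    obtain ⟨d, hd, rfl⟩ := Finset.mem_image.1 he
    obtain ⟨⟨h1, h2⟩, h3, -⟩ := hBm d hd
    rw [Finset.mem_sdiff, Finset.mem_Icc, Finset.mem_insert, Finset.mem_singleton, Nat.cast_add,
      Nat.cast_one]
    omega
  · rw [Finset.card_image_of_injective _ hinj, hlog']
    have h1 : K' * M ≤ K' * (2 * L) := mul_le_mul_of_nonneg_left hM2 (by linarith)
    linarith
  · intro e he
    obtain ⟨d, hd, rfl⟩ := Finset.mem_image.1 he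
    rw [FNc_tr, sing_tr]
    exact (hBm d hd).2.2.1

end Pool.Agent.H96.FD
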