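import Pool.Agent.H96.FD.SP
import Pool.Agent.H96.AS.PW

/-!
# PC: the local constant of a prime pair is `W/φ(W)` up to `1 + o(1)`

`w = yy x`, `W = WW w`, `1 ≤ h ≤ (log x)^2`.
* `PV_C`: `Cb (W |h|) = ∏_{p ∣ W|h|} (1 + 1/(p-1)) = wp w * ∏_{p ∣ h, p > w} (1 + 1/(p-1))` (`wp w = W/φ(W) = ∏_{p ≤ w} (1 - 1/p)⁻¹`, `1 + 1/(p-1) = (1 - 1/p)⁻¹`), and the last product is `≤ exp(∑_{p ∣ h, p > w} 2/p) ≤ 1 + ε` for large `x`: as in `PW.lean` (`PW_gfm`,
  `PW_log`, `yy_lower`): `h` has at most `log |h|/log w` prime factors `> w`, each `2/p ≤ 2/w`, and `log |h| ≤ 2 log L ≤ 402 w`, so the sum is `≤ 804/log w`. (It is also `≤ gfm 1 w h` up to a constant factor in the exponent.)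
-/

set_option autoImplicit false

namespace Pool.Agent.H96.FD

open Finset Pool.Agent.H17 Pool.Agent.H6.MF Pool.Agent.H6.MB Pool.Agent.H12.DM

open Filter in
private theorem PC_ev (C ε : ℝ) (hε : 0 < ε) : ∃ X : ℝ, ∀ x : ℝ, X ≤ x → 2 ≤ yy x ∧
    1 ≤ Real.log x ∧ Real.exp (C / Real.log (yy x)) ≤ 1 + ε := by
  have h1 : Tendsto (fun x : ℝ => Real.exp (C / Real.log (yy x))) atTop (nhds 1) := by
    have h2 : Tendsto (fun x : ℝ => C / Real.log (yy x)) atTop (nhds 0) := by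
      apply Tendsto.div_atTop tendsto_const_nhds
      exact Real.tendsto_log_atTop.comp (tendsto_natCast_atTop_atTop.comp tendsto_yy)
    have h3 := (Real.continuous_exp.tendsto 0).comp h2
    rwa [Real.exp_zero] at h3
  have h4 := h1.eventually (ge_mem_nhds (by linarith : (1 : ℝ) < 1 + ε))
  obtain ⟨X, hX⟩ := Filter.eventually_atTop.1 (h4.and
    ((tendsto_yy.eventually_ge_atTop 2).and (Real.tendsto_log_atTop.eventually_ge_atTop 1)))
  exact ⟨X, fun x hx => ⟨(hX x hx).2.1, (hX x hx).2.2, (hX x hx).1⟩⟩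

private theorem PC_log {x : ℝ} (hx : 2 ≤ yy x) (hL : 1 ≤ Real.log x) :
    Real.log (4 * (Real.log x) ^ 2) ≤ 402 * (yy x : ℝ) := by
  have h1 := yy_lower (x := x) (by omega)
  have h2 : (2 : ℝ) ≤ yy x := by exact_mod_cast hx
  have h3 : Real.log 4 ≤ 2 := by
    have h8 : Real.log 4 = 2 * Real.log 2 := by
      rw [show (4 : ℝ) = 2 ^ 2 by norm_num, Real.log_pow]
      push_cast
      ring
    rw [h8]
    have := Real.log_two_lt_d9
    linarith
  rw [Real.log_mul (by norm_num) (by positivity), Real.log_pow]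
  push_cast
  linarith

private theorem PC_fac (w : ℕ) : (WW w).primeFactors = PP w := by
  unfold WW
  exact Nat.primeFactors_prod fun p hp => (mem_PP.mp hp).2

private theorem PC_wp (w : ℕ) : ∏ p ∈ PP w, (1 + 1 / ((p : ℝ) - 1)) = wp w := by
  unfold wp
  rw [totient_WW]
  have h1 : ((WW w : ℕ) : ℝ) = ∏ p ∈ PP w, (p : ℝ) := by
    unfold WW
    push_cast
    rfl
  rw [h1, ← Finset.prod_div_distrib]
  refine Finset.prod_congr rfl fun p hp => ?_
  have h2 : (1 : ℝ) < p := by exact_mod_cast (mem_PP.mp hp).2.one_lt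
  have h3 : (p : ℝ) - 1 ≠ 0 := by
    have : 0 < (p : ℝ) - 1 := by linarith
    exact this.ne'
  field_simp
  ring

theorem PV_C (ε : ℝ) (hε : 0 < ε) : ∃ X : ℝ, ∀ x : ℝ, X ≤ x → ∀ h : ℕ, 1 ≤ h → (h : ℝ) ≤ (Real.log x) ^ 2 →
    Cb (WW (yy x) * h) ≤ (1 + ε) * wp (yy x) := by
  obtain ⟨X, hX⟩ := PC_ev 402 ε hε
  refine ⟨X, fun x hx h h1 hh => ?_⟩
  obtain ⟨hw, hL, hexp⟩ := hX x hx
  have hlog := PC_log hw hL
  obtain ⟨w, hwd⟩ : ∃ w : ℕ, w = yy x := ⟨_, rfl⟩
  rw [← hwd] at hw hexp hlog ⊢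
  have hw2 : (2 : ℝ) ≤ w := by exact_mod_cast hw
  have hw1 : (1 : ℝ) < w := by linarith
  have hw0 : (0 : ℝ) < w := by linarith
  have hlw : 0 < Real.log w := Real.log_pos hw1
  obtain ⟨S, hS⟩ : ∃ S : Finset ℕ, S = h.primeFactors.filter (fun p => w < p) := ⟨_, rfl⟩
  have hfac : (WW w * h).primeFactors = PP w ∪ S := by
    rw [Nat.primeFactors_mul (WW_pos w).ne' (by omega), PC_fac, hS]
    ext p
    rw [Finset.mem_union, Finset.mem_union, Finset.mem_filter]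
    constructor
    · rintro (h2 | h2)
      · exact Or.inl h2
      · by_cases h3 : w < p
        · exact Or.inr ⟨h2, h3⟩
        · exact Or.inl (mem_PP.mpr ⟨by omega, Nat.prime_of_mem_primeFactors h2⟩)
    · rintro (h2 | h2)
      · exact Or.inl h2
      · exact Or.inr h2.1
  have hdis : Disjoint (PP w) S := by
    rw [Finset.disjoint_left]
    intro p hp hp'
    have h5 := (mem_PP.mp hp).1
    rw [hS, Finset.mem_filter] at hp'
    omega
  unfold Cb
  rw [hfac, Finset.prod_union hdis, PC_wp, mul_comm]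
  refine mul_le_mul_of_nonneg_right ?_ (wp_pos w).le
  have hmem : ∀ p ∈ S, p.Prime ∧ (w : ℝ) < (p : ℝ) ∧ (p : ℤ) ∣ (h : ℤ) := by
    intro p hp
    rw [hS, Finset.mem_filter, Nat.mem_primeFactors] at hp
    exact ⟨hp.1.1, by exact_mod_cast hp.2, by exact_mod_cast hp.1.2.1⟩
  have hpw : ∀ p ∈ S, (w : ℝ) ≤ (p : ℝ) - 1 := by
    intro p hp
    rw [hS, Finset.mem_filter] at hp
    have h2 : w + 1 ≤ p := hp.2
    have h3 : ((w + 1 : ℕ) : ℝ) ≤ (p : ℝ) := by exact_mod_cast h2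
    push_cast at h3
    linarith
  refine (NUA_exp_prod _ _ fun p hp => ?_).trans ((Real.exp_le_exp.2 ?_).trans hexp)
  · have := hpw p hp
    have h2 : 0 < (p : ℝ) - 1 := by linarith
    positivity
  have h4 : ∑ p ∈ S, 1 / ((p : ℝ) - 1) ≤ S.card * (1 / w) := by
    rw [← nsmul_eq_mul]
    refine Finset.sum_le_card_nsmul _ _ _ fun p hp => ?_
    exact div_le_div_of_nonneg_left (by norm_num) hw0 (hpw p hp)
  refine h4.trans ?_
  have hM : |((h : ℤ) : ℝ)| ≤ 4 * (Real.log x) ^ 2 := by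
    have h5 : |((h : ℤ) : ℝ)| = (h : ℝ) := by
      rw [Int.cast_natCast]
      exact abs_of_nonneg (Nat.cast_nonneg h)
    rw [h5]
    nlinarith [sq_nonneg (Real.log x)]
  have hne : (h : ℤ) ≠ 0 := by
    have : 0 < h := h1
    positivity
  have h6 := NUA_card hw1 hne hM hmem
  rw [le_div_iff₀ hlw]
  have h7 : (S.card : ℝ) * (1 / w) * Real.log w = ((S.card : ℝ) * Real.log w) / w := by
    field_simp
  rw [h7, div_le_iff₀ hw0]
  linarith

end Pool.Agent.H96.FD
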