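import Pool.Agent.H96.FD.PC
import Pool.Agent.H17.BV.Pii

/-!
# PV: prime pairs in a residue class, with the constant 4 (Bombieri-Davenport, from Bombieri-Vinogradov)

`L = log x`, `w = yy x`, `W = WW w`, `N₀ = ⌊x⌋₊`, `1 ≤ |h| ≤ L^2`, `(u,W) = 1`.
* `PV`: `SPw` with `b = W |h|` (even: `2 ∣ W`), `D = ⌊x^(1/4-η)⌋₊`, `I = Finset.Icc 1 (N₀ + |h|)`, `w n = 1` if `n - h = m` is a prime in `[1, N₀]` with `m ≡ u [MOD W]`, `0` otherwise, `X = Li N₀/φ(W)` (`Pool.Agent.H17.ZB.Li`). For `e ≤ D^2` squarefree and coprime to `W h`: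
  `∑_{n ∈ I, e ∣ n} w n` is the number of primes `m ≤ N₀`, `m ≡ u (W)`, `e ∣ m + h`, `m + h ≥ 1`; without the last condition (at most `|h|` of the `m` have `m + h ≤ 0`) it is the number of the primes `m ≤ N₀` in one residue class modulo `W e` (Chinese remainder theorem: `m ≡ u (W)`, `m ≡ -h (e)`),
  which is coprime to `W e`. `bv_pi (ε := η) 5 3` at `N = N₀`: it is `Li N₀/φ(W e) + O(E (W e))`, `φ(W e) = φ(W) φ(e)`, `W e ≤ L x^(1/2 - 2η) ≤ N₀^(1/2 - η)`. So the error sum is `≤ ∑_e 3^ω(e) (E (W e) + |h|) ≤ ∑_{q ≤ N₀^(1/2-η)} 3^ω(q) E q + L^2 ∑_{e ≤ N₀^(1/2-η)} 3^ω(e)`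
  (`e ↦ W e` is injective, `ω(e) ≤ ω(W e)`; the second sum by `bv_pi_small`: `≤ C₁ N₀^(3/4)`) `≤ 2 x/L^5`, which is `≤ (ε/4) x/(W L^2)` as `W ≤ L`.
  Main term: `Cb (W |h|) Li(N₀)/(φ(W) log D) ≤ (1+κ) wp w * (wp w/W) * (1+κ) (x/L) * (1+κ)/((1/4 - η) L)`, using `Li N₀ ≤ (1+κ) x/L` (`Pool/Agent/H17/ZB`) and `log D ≥ (1-κ)(1/4-η) L`. `wp w ≥ 1`.
  A prime `m + h > x^(1/4)` is `> D`; `isP (m + h)` means `(m+h).toNat` prime.
-/

set_option autoImplicit false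

namespace Pool.Agent.H96.FD

open Finset Pool.Agent.H17 Pool.Agent.H6.MF Pool.Agent.H6.MB Pool.Agent.H12.DM

private lemma PV_int {a b : ℝ} (ha : 2 ≤ a) (hab : a ≤ b) :
    IntervalIntegrable (fun t : ℝ => 1 / Real.log t) MeasureTheory.volume a b := by
  apply ContinuousOn.intervalIntegrable
  intro t ht
  rw [Set.uIcc_of_le hab] at ht
  have ht0 : t ≠ 0 := by linarith [ht.1]
  have hlt : Real.log t ≠ 0 := (Real.log_pos (by linarith [ht.1])).ne'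
  apply ContinuousAt.continuousWithinAt
  fun_prop

private lemma PV_bd {a b : ℝ} (ha : 2 ≤ a) (hab : a ≤ b) :
    ∫ t in a..b, 1 / Real.log t ≤ b / Real.log a := by
  have hla : 0 < Real.log a := Real.log_pos (by linarith)
  have h1 : ∫ t in a..b, 1 / Real.log t ≤ ∫ t in a..b, (1 / Real.log a : ℝ) :=
    intervalIntegral.integral_mono_on hab (PV_int ha hab) intervalIntegrable_const (fun t ht =>
      one_div_le_one_div_of_le hla (Real.log_le_log (by linarith) ht.1))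
  rw [intervalIntegral.integral_const, smul_eq_mul] at h1
  have h2 : (b - a) * (1 / Real.log a) ≤ b / Real.log a := by
    rw [mul_one_div]
    gcongr
    linarith
  linarith

private lemma PV_Li0 {z N : ℝ} (hz : 2 ≤ z) (hzN : z ≤ N) :
    Pool.Agent.H17.ZB.Li N ≤ z / Real.log 2 + N / Real.log z := by
  unfold Pool.Agent.H17.ZB.Li
  rw [← intervalIntegral.integral_add_adjacent_intervals (PV_int le_rfl hz) (PV_int hz hzN)]
  exact add_le_add (PV_bd le_rfl hz) (PV_bd hz hzN)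

private lemma PV_Linn {N : ℝ} (hN : 2 ≤ N) : 0 ≤ Pool.Agent.H17.ZB.Li N := by
  unfold Pool.Agent.H17.ZB.Li
  refine intervalIntegral.integral_nonneg hN fun t ht => ?_
  have : 0 < Real.log t := Real.log_pos (by linarith [ht.1])
  positivity

open Filter in
private lemma PV_ev (n : ℕ) (c δ : ℝ) (hc : 0 < c) (hδ : 0 < δ) :
    ∀ᶠ x : ℝ in atTop, (Real.log x) ^ n ≤ c * x ^ δ := by
  have h1 := (isLittleO_log_rpow_rpow_atTop (n : ℝ) hδ).bound hc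
  filter_upwards [h1, eventually_ge_atTop (1 : ℝ)] with x hx hx1
  have h2 : 0 ≤ Real.log x := Real.log_nonneg hx1
  rw [Real.norm_of_nonneg (Real.rpow_nonneg h2 _), Real.norm_of_nonneg (by positivity),
    Real.rpow_natCast] at hx
  exact hx

/-- the weight -/
private noncomputable def PVw (S : Finset ℕ) (h : ℤ) (n : ℕ) : ℝ :=
  if ((n : ℤ) - h).toNat ∈ S then 1 else 0

private lemma PV_sum (N : ℕ) (S : Finset ℕ) (hS : ∀ m ∈ S, 1 ≤ m ∧ m ≤ N) (h : ℤ) (P : ℕ → Prop)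
    [DecidablePred P] :
    ∑ n ∈ (Finset.Icc 1 (N + h.natAbs)).filter P, PVw S h n =
      ((S.filter (fun m : ℕ => 1 ≤ (m : ℤ) + h ∧ P ((m : ℤ) + h).toNat)).card : ℝ) := by
  unfold PVw
  rw [Finset.sum_boole]
  congr 1
  refine Finset.card_bij' (fun n _ => ((n : ℤ) - h).toNat) (fun m _ => ((m : ℤ) + h).toNat)
    ?_ ?_ ?_ ?_
  · intro n hn
    rw [Finset.mem_filter, Finset.mem_filter, Finset.mem_Icc] at hn
    obtain ⟨⟨⟨h1, h2⟩, h3⟩, h4⟩ := hn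
    have h5 := hS _ h4
    have h6 : (((((n : ℤ) - h).toNat : ℕ) : ℤ) + h).toNat = n := by omega
    rw [Finset.mem_filter, h6]
    exact ⟨h4, by omega, h3⟩
  · intro m hm
    rw [Finset.mem_filter] at hm
    obtain ⟨h1, h2, h3⟩ := hm
    have h5 := hS _ h1
    have h6 : (((((m : ℤ) + h).toNat : ℕ) : ℤ) - h).toNat = m := by omega
    rw [Finset.mem_filter, Finset.mem_filter, Finset.mem_Icc, h6]
    exact ⟨⟨⟨by omega, by omega⟩, h3⟩, h1⟩
  · intro n hn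
    rw [Finset.mem_filter, Finset.mem_filter, Finset.mem_Icc] at hn
    have h5 := hS _ hn.2
    change (((((n : ℤ) - h).toNat : ℕ) : ℤ) + h).toNat = n
    omega
  · intro m hm
    rw [Finset.mem_filter] at hm
    omega

private lemma PV_crt {W u e : ℕ} {h : ℤ} (hWe : W.Coprime e) (hu : u.Coprime W) (he : 0 < e)
    (hh : e.Coprime h.natAbs) : ∃ a : ℕ, a.Coprime (W * e) ∧
      ∀ m : ℕ, (m ≡ a [MOD W * e] ↔ (m ≡ u [MOD W] ∧ (e : ℤ) ∣ (m : ℤ) + h)) := by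
  obtain ⟨c, hc⟩ : ∃ c : ℕ, (e : ℤ) ∣ (c : ℤ) + h := by
    refine ⟨((-h) % (e : ℤ)).toNat, ?_⟩
    have h1 : 0 ≤ (-h) % (e : ℤ) := Int.emod_nonneg _ (by omega)
    rw [Int.toNat_of_nonneg h1]
    have h2 := Int.emod_add_mul_ediv (-h) (e : ℤ)
    exact ⟨-((-h) / (e : ℤ)), by linarith⟩
  obtain ⟨a, ha1, ha2⟩ := Nat.chineseRemainder hWe u c
  have key : ∀ m : ℕ, (e : ℤ) ∣ (m : ℤ) + h ↔ m ≡ c [MOD e] := by
    intro m
    rw [← Int.natCast_modEq_iff, Int.modEq_iff_dvd]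
    constructor
    · intro h1
      have h2 := dvd_sub hc h1
      have h3 : (c : ℤ) + h - ((m : ℤ) + h) = (c : ℤ) - m := by ring
      rwa [h3] at h2
    · intro h1
      have h2 := dvd_sub hc h1
      have h3 : (c : ℤ) + h - ((c : ℤ) - m) = (m : ℤ) + h := by ring
      rwa [h3] at h2
  refine ⟨a, ?_, fun m => ?_⟩
  · rw [Nat.coprime_mul_iff_right]
    constructor
    · have h1 := ha1.gcd_eq
      unfold Nat.Coprime
      rw [h1]
      exact hu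
    · have hae : (e : ℤ) ∣ (a : ℤ) + h := (key a).2 ha2
      have hd1 : Nat.gcd a e ∣ e := Nat.gcd_dvd_right a e
      have h2 : ((Nat.gcd a e : ℕ) : ℤ) ∣ (a : ℤ) + h := (Int.natCast_dvd_natCast.2 hd1).trans hae
      have h3 : ((Nat.gcd a e : ℕ) : ℤ) ∣ (a : ℤ) :=
        Int.natCast_dvd_natCast.2 (Nat.gcd_dvd_left a e)
      have h4 : ((Nat.gcd a e : ℕ) : ℤ) ∣ h := (dvd_add_right h3).1 h2
      have h5 : Nat.gcd a e ∣ h.natAbs := Int.natCast_dvd.1 h4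
      have h6 := Nat.dvd_gcd hd1 h5
      unfold Nat.Coprime at hh
      rw [hh] at h6
      exact Nat.dvd_one.1 h6
  · rw [← Nat.modEq_and_modEq_iff_modEq_mul hWe, key]
    exact ⟨fun ⟨h1, h2⟩ => ⟨h1.trans ha1, h2.trans ha2⟩,
      fun ⟨h1, h2⟩ => ⟨h1.trans ha1.symm, h2.trans ha2.symm⟩⟩

private lemma PV_one {N W u e : ℕ} {h : ℤ} {E : ℝ} (hWe : W.Coprime e) (hu : u.Coprime W)
    (he : 0 < e) (hh : e.Coprime h.natAbs)
    (hE : ∀ a : ℕ, a.Coprime (W * e) →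
      |((((Finset.Icc 1 N).filter (fun p => p.Prime ∧ p ≡ a [MOD W * e])).card : ℕ) : ℝ) -
        Pool.Agent.H17.ZB.Li N / (Nat.totient (W * e) : ℝ)| ≤ E) :
    |∑ n ∈ (Finset.Icc 1 (N + h.natAbs)).filter (fun n => e ∣ n),
        PVw ((Finset.Icc 1 N).filter (fun m => m.Prime ∧ m ≡ u [MOD W])) h n -
      (Pool.Agent.H17.ZB.Li N / (Nat.totient W : ℝ)) / (Nat.totient e : ℝ)| ≤ E + |(h : ℝ)| := by
  obtain ⟨a, ha, hm⟩ := PV_crt hWe hu he hh
  have h1 := hE a ha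
  rw [Nat.totient_mul hWe, Nat.cast_mul, ← div_div] at h1
  rw [PV_sum N _ (fun m hm => by
    rw [Finset.mem_filter, Finset.mem_Icc] at hm
    exact hm.1) h (fun n => e ∣ n)]
  set c1 := ((((Finset.Icc 1 N).filter (fun m => m.Prime ∧ m ≡ u [MOD W])).filter
    (fun m : ℕ => 1 ≤ (m : ℤ) + h ∧ e ∣ ((m : ℤ) + h).toNat)).card) with hc1
  set c2 := ((Finset.Icc 1 N).filter (fun p => p.Prime ∧ p ≡ a [MOD W * e])).card with hc2
  have h2 : c1 ≤ c2 := by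
    refine Finset.card_le_card fun m hm1 => ?_
    rw [Finset.mem_filter, Finset.mem_filter] at hm1
    obtain ⟨⟨h3, h4, h5⟩, h6, h7⟩ := hm1
    rw [Finset.mem_filter]
    refine ⟨h3, h4, (hm m).2 ⟨h5, ?_⟩⟩
    have h8 : ((((m : ℤ) + h).toNat : ℕ) : ℤ) = (m : ℤ) + h := by omega
    rw [← h8]
    exact Int.natCast_dvd_natCast.2 h7
  have h3 : c2 ≤ c1 + h.natAbs := by
    have h4 : (Finset.Icc 1 h.natAbs).card = h.natAbs := by
      rw [Nat.card_Icc]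
      omega
    rw [hc1]
    conv_rhs => rw [← h4]
    refine le_trans (Finset.card_le_card ?_) (Finset.card_union_le _ _)
    intro m hm1
    rw [Finset.mem_filter] at hm1
    obtain ⟨h5, h6, h7⟩ := hm1
    obtain ⟨h8, h9⟩ := (hm m).1 h7
    rw [Finset.mem_union]
    have h5' := Finset.mem_Icc.1 h5
    by_cases h10 : 1 ≤ (m : ℤ) + h
    · left
      rw [Finset.mem_filter, Finset.mem_filter]
      refine ⟨⟨h5, h6, h8⟩, h10, ?_⟩
      have h11 : ((((m : ℤ) + h).toNat : ℕ) : ℤ) = (m : ℤ) + h := by omega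
      rw [← h11] at h9
      exact Int.natCast_dvd_natCast.1 h9
    · right
      rw [Finset.mem_Icc]
      omega
  have h4 : |(c1 : ℝ) - (c2 : ℝ)| ≤ |(h : ℝ)| := by
    have h5 : ((h.natAbs : ℕ) : ℝ) = |(h : ℝ)| := by rw [Nat.cast_natAbs, Int.cast_abs]
    have h6 : (c1 : ℝ) ≤ c2 := by exact_mod_cast h2
    have h7 : (c2 : ℝ) ≤ c1 + (h.natAbs : ℕ) := by exact_mod_cast h3
    rw [abs_sub_comm, abs_of_nonneg (by linarith), ← h5]
    linarith
  have h5 : (c1 : ℝ) - Pool.Agent.H17.ZB.Li N / (Nat.totient W : ℝ) / (Nat.totient e : ℝ) =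
      ((c2 : ℝ) - Pool.Agent.H17.ZB.Li N / (Nat.totient W : ℝ) / (Nat.totient e : ℝ)) +
        ((c1 : ℝ) - (c2 : ℝ)) := by ring
  rw [h5]
  exact (abs_add_le _ _).trans (add_le_add h1 h4)

private lemma PV_red {N W u D : ℕ} {h : ℤ} (hh : h ≠ 0) (hW : 0 < W) (h2 : 2 ∣ W)
    (hu : u.Coprime W) (hD : 2 ≤ D) (hLi : 0 ≤ Pool.Agent.H17.ZB.Li N) {E : ℕ → ℝ}
    (hE : ∀ e : ℕ, 1 ≤ e → e ≤ D ^ 2 → ∀ a : ℕ, a.Coprime (W * e) →
      |((((Finset.Icc 1 N).filter (fun p => p.Prime ∧ p ≡ a [MOD W * e])).card : ℕ) : ℝ) -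
        Pool.Agent.H17.ZB.Li N / (Nat.totient (W * e) : ℝ)| ≤ E (W * e)) :
    ((((Finset.Icc 1 N).filter (fun m => m.Prime ∧ m ≡ u [MOD W])).filter
      (fun m : ℕ => 1 ≤ (m : ℤ) + h ∧ (((m : ℤ) + h).toNat.Prime ∧ D < ((m : ℤ) + h).toNat))).card : ℝ) ≤
      Cb (W * h.natAbs) * (Pool.Agent.H17.ZB.Li N / (Nat.totient W : ℝ)) / Real.log D +
      ∑ e ∈ (Finset.Icc 1 (D ^ 2)).filter (fun e => Squarefree e ∧ e.Coprime (W * h.natAbs)),
        (3 : ℝ) ^ e.primeFactors.card * (E (W * e) + |(h : ℝ)|) := by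
  have hn : 0 < h.natAbs := Int.natAbs_pos.2 hh
  rw [← PV_sum N ((Finset.Icc 1 N).filter (fun m => m.Prime ∧ m ≡ u [MOD W])) (fun m hm => by
    rw [Finset.mem_filter, Finset.mem_Icc] at hm
    exact hm.1) h (fun n => n.Prime ∧ D < n)]
  refine (SPw (W * h.natAbs) (Nat.mul_pos hW hn) (h2.mul_right _) D hD
    (Finset.Icc 1 (N + h.natAbs)) (PVw ((Finset.Icc 1 N).filter (fun m => m.Prime ∧ m ≡ u [MOD W])) h)
    (fun n => by
      unfold PVw
      split_ifs <;> norm_num) (Pool.Agent.H17.ZB.Li N / (Nat.totient W : ℝ)) (by positivity)).trans ?_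
  refine add_le_add le_rfl (Finset.sum_le_sum fun e he => ?_)
  rw [Finset.mem_filter, Finset.mem_Icc] at he
  obtain ⟨⟨h3, h4⟩, h5, h6⟩ := he
  rw [Nat.coprime_mul_iff_right] at h6
  refine mul_le_mul_of_nonneg_left ?_ (by positivity)
  exact PV_one h6.1.symm hu h3 h6.2 (hE e h3 h4)

private lemma PV_es {W D Z : ℕ} (hW : 0 < W) (hZ : W * D ^ 2 ≤ Z) {E : ℕ → ℝ}
    (hE : ∀ q, 0 ≤ E q) {c : ℝ} (hc : 0 ≤ c) (P : ℕ → Prop) [DecidablePred P] :
    ∑ e ∈ (Finset.Icc 1 (D ^ 2)).filter P, (3 : ℝ) ^ e.primeFactors.card * (E (W * e) + c) ≤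
      ∑ q ∈ Finset.Icc 1 Z, (3 : ℝ) ^ q.primeFactors.card * E q +
        c * ∑ q ∈ Finset.Icc 1 Z, (3 : ℝ) ^ q.primeFactors.card := by
  have hDZ : D ^ 2 ≤ Z := (Nat.le_mul_of_pos_left _ hW).trans hZ
  have h1 : ∑ e ∈ (Finset.Icc 1 (D ^ 2)).filter P, (3 : ℝ) ^ e.primeFactors.card * (E (W * e) + c) =
      ∑ e ∈ (Finset.Icc 1 (D ^ 2)).filter P, (3 : ℝ) ^ e.primeFactors.card * E (W * e) +
        c * ∑ e ∈ (Finset.Icc 1 (D ^ 2)).filter P, (3 : ℝ) ^ e.primeFactors.card := by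
    rw [Finset.mul_sum, ← Finset.sum_add_distrib]
    exact Finset.sum_congr rfl fun e _ => by ring
  rw [h1]
  refine add_le_add ?_ (mul_le_mul_of_nonneg_left ?_ hc)
  · calc ∑ e ∈ (Finset.Icc 1 (D ^ 2)).filter P, (3 : ℝ) ^ e.primeFactors.card * E (W * e)
        ≤ ∑ e ∈ (Finset.Icc 1 (D ^ 2)).filter P, (3 : ℝ) ^ (W * e).primeFactors.card * E (W * e) := by
          refine Finset.sum_le_sum fun e he => ?_
          rw [Finset.mem_filter, Finset.mem_Icc] at he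
          refine mul_le_mul_of_nonneg_right ?_ (hE _)
          refine pow_le_pow_right₀ (by norm_num) (Finset.card_le_card ?_)
          exact Nat.primeFactors_mono (Nat.dvd_mul_left e W)
            (Nat.mul_ne_zero hW.ne' (by omega))
      _ = ∑ q ∈ ((Finset.Icc 1 (D ^ 2)).filter P).image (fun e => W * e),
            (3 : ℝ) ^ q.primeFactors.card * E q := by
          rw [Finset.sum_image]
          intro e _ e' _ hee
          exact Nat.eq_of_mul_eq_mul_left hW hee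
      _ ≤ ∑ q ∈ Finset.Icc 1 Z, (3 : ℝ) ^ q.primeFactors.card * E q := by
          refine Finset.sum_le_sum_of_subset_of_nonneg ?_ (fun q _ _ => mul_nonneg (by positivity) (hE q))
          intro q hq
          obtain ⟨e, he, rfl⟩ := Finset.mem_image.1 hq
          rw [Finset.mem_filter, Finset.mem_Icc] at he
          rw [Finset.mem_Icc]
          exact ⟨Nat.mul_pos hW he.1.1, (Nat.mul_le_mul_left W he.1.2).trans hZ⟩
  · refine Finset.sum_le_sum_of_subset_of_nonneg ?_ (fun q _ _ => by positivity)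
    intro e he
    rw [Finset.mem_filter, Finset.mem_Icc] at he
    rw [Finset.mem_Icc]
    exact ⟨he.1.1, he.1.2.trans hDZ⟩

private lemma PV_lin {x κ δ N L : ℝ} (hκ0 : 0 < κ) (hκ1 : κ ≤ 1) (hδ : δ = κ / 4) (hx : 4 ≤ x) (hL : L = Real.log x)
    (hL1 : 1 ≤ L) (hev : L ^ 1 ≤ κ / 4 * x ^ δ) (hN : x / 2 ≤ N) (hNx : N ≤ x) :
    Pool.Agent.H17.ZB.Li N ≤ (1 + κ) * (x / L) := by
  have hx0 : 0 < x := by linarith
  have hδ0 : 0 < δ := by rw [hδ]; linarith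
  have hδ1 : δ ≤ 1 / 4 := by rw [hδ]; linarith
  rw [pow_one] at hev
  have h4 : 4 ≤ x ^ δ := by
    have h5 : κ / 4 * x ^ δ ≤ 1 / 4 * x ^ δ := by
      have : 0 < x ^ δ := Real.rpow_pos_of_pos hx0 _
      nlinarith
    linarith
  have hzx : x ^ (1 - δ) * x ^ δ = x := by
    rw [← Real.rpow_add hx0]
    have : 1 - δ + δ = 1 := by ring
    rw [this, Real.rpow_one]
  have hz0 : 0 < x ^ (1 - δ) := Real.rpow_pos_of_pos hx0 _
  have hz2 : 2 ≤ x ^ (1 - δ) := by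
    have h5 : (4 : ℝ) ^ (1 / 2 : ℝ) ≤ x ^ (1 / 2 : ℝ) := Real.rpow_le_rpow (by norm_num) hx (by norm_num)
    have h6 : x ^ (1 / 2 : ℝ) ≤ x ^ (1 - δ) := Real.rpow_le_rpow_of_exponent_le (by linarith) (by linarith)
    have h7 : (4 : ℝ) ^ (1 / 2 : ℝ) = 2 := by
      have : (4 : ℝ) = 2 ^ (2 : ℝ) := by norm_num
      rw [this, ← Real.rpow_mul (by norm_num)]
      norm_num
    linarith
  have hzN : x ^ (1 - δ) ≤ N := by
    have : x ^ (1 - δ) * 4 ≤ x ^ (1 - δ) * x ^ δ := mul_le_mul_of_nonneg_left h4 hz0.le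
    linarith
  refine (PV_Li0 hz2 hzN).trans ?_
  have hlz : Real.log (x ^ (1 - δ)) = (1 - δ) * L := by rw [Real.log_rpow hx0, hL]
  have hl2 := Real.log_two_gt_d9
  have h1 : x ^ (1 - δ) / Real.log 2 ≤ κ / 2 * (x / L) := by
    have h5 : x ^ (1 - δ) / Real.log 2 ≤ 2 * x ^ (1 - δ) := by
      rw [div_le_iff₀ (by linarith)]
      nlinarith
    have h6 : 2 * x ^ (1 - δ) ≤ κ / 2 * (x / L) := by
      rw [← mul_div_assoc, le_div_iff₀ (by linarith)]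
      calc 2 * x ^ (1 - δ) * L ≤ 2 * x ^ (1 - δ) * (κ / 4 * x ^ δ) := by gcongr
        _ = κ / 2 * (x ^ (1 - δ) * x ^ δ) := by ring
        _ = κ / 2 * x := by rw [hzx]
    linarith
  have h2 : N / Real.log (x ^ (1 - δ)) ≤ (1 + κ / 2) * (x / L) := by
    rw [hlz, div_le_iff₀ (by nlinarith)]
    have h5 : 1 ≤ (1 + κ / 2) * (1 - δ) := by
      rw [hδ]
      nlinarith
    calc N ≤ x * 1 := by linarith
      _ ≤ x * ((1 + κ / 2) * (1 - δ)) := by gcongr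
      _ = (1 + κ / 2) * (x / L) * ((1 - δ) * L) := by
          field_simp
  linarith

theorem PV (η ε : ℝ) (hη : 0 < η) (hη1 : η ≤ 1 / 20) (hε : 0 < ε) : ∃ X : ℝ, ∀ x : ℝ, X ≤ x → ∀ h : ℤ, h ≠ 0 →
    |(h : ℝ)| ≤ (Real.log x) ^ 2 → ∀ u : ℕ, u.Coprime (WW (yy x)) →
    (((Finset.Icc 1 ⌊x⌋₊).filter (fun m : ℕ => m.Prime ∧ m ≡ u [MOD WW (yy x)] ∧ isP ((m : ℤ) + h) ∧
      x ^ (1 / 4 : ℝ) < (m : ℝ) + (h : ℝ))).card : ℝ) ≤
      (1 / (1 / 4 - η) + ε) * wp (yy x) ^ 2 * (x / ((WW (yy x) : ℝ) * (Real.log x) ^ 2)) := by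
  obtain ⟨κ, hκ0, hκ1, hκε⟩ : ∃ κ : ℝ, 0 < κ ∧ κ ≤ 1 ∧ 70 * κ ≤ ε := by
    refine ⟨min 1 (ε / 70), by positivity, min_le_left _ _, ?_⟩
    have := min_le_right (1 : ℝ) (ε / 70)
    linarith
  obtain ⟨X1, hX1⟩ := PV_C κ hκ0
  obtain ⟨N0, hN0⟩ := BVL.bv_pi hη 5 3
  obtain ⟨C1, hC1, hsm⟩ := BVL.bv_pi_small 3
  obtain ⟨δ, hδ⟩ : ∃ δ : ℝ, δ = κ / 4 := ⟨_, rfl⟩
  have hδ0 : 0 < δ := by rw [hδ]; linarith
  have hev : ∀ᶠ x : ℝ in Filter.atTop, X1 ≤ x ∧ (N0 : ℝ) + 1 ≤ x ∧ 4 ≤ x ∧ 2 ≤ yy x ∧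
      15 + 10 / κ + 128 / ε ≤ Real.log x ∧ (Real.log x) ^ 1 ≤ 1 / 2 * x ^ η ∧
      (Real.log x) ^ 1 ≤ κ / 4 * x ^ δ ∧ (Real.log x) ^ 5 ≤ ε / (4 * (C1 + 1)) * x ^ (1 / 4 : ℝ) := by
    filter_upwards [Filter.eventually_ge_atTop X1, Filter.eventually_ge_atTop ((N0 : ℝ) + 1),
      Filter.eventually_ge_atTop (4 : ℝ), tendsto_yy.eventually_ge_atTop 2,
      Real.tendsto_log_atTop.eventually_ge_atTop (15 + 10 / κ + 128 / ε),
      PV_ev 1 (1 / 2) η (by norm_num) hη, PV_ev 1 (κ / 4) δ (by positivity) hδ0,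
      PV_ev 5 (ε / (4 * (C1 + 1))) (1 / 4) (by positivity) (by norm_num)] with x h1 h2 h3 h4 h5 h6 h7 h8
    exact ⟨h1, h2, h3, h4, h5, h6, h7, h8⟩
  obtain ⟨X, hX⟩ := Filter.eventually_atTop.1 hev
  refine ⟨X, fun x hx h hh hhL u hu => ?_⟩
  obtain ⟨e1, e2, e3, e4, e5, e6, e7, e8⟩ := hX x hx
  obtain ⟨L, hL⟩ : ∃ L, L = Real.log x := ⟨_, rfl⟩
  obtain ⟨W, hW⟩ : ∃ W, W = WW (yy x) := ⟨_, rfl⟩
  obtain ⟨N, hN⟩ : ∃ N, N = ⌊x⌋₊ := ⟨_, rfl⟩
  obtain ⟨s, hs⟩ : ∃ s, s = 1 / 4 - η := ⟨_, rfl⟩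
  rw [← hW] at hu
  rw [← hL] at hhL e5 e6 e7 e8
  rw [← hL, ← hN, ← hW, ← hs]
  have hs5 : 1 / 5 ≤ s := by rw [hs]; linarith
  have hs4 : s ≤ 1 / 4 := by rw [hs]; linarith
  have hx0 : 0 < x := by linarith
  have hκi : 0 < 10 / κ := by positivity
  have hεi : 0 < 128 / ε := by positivity
  have hL15 : 15 ≤ L := by linarith
  have hLκ : 10 ≤ κ * L := by
    have h1 : 10 / κ ≤ L := by linarith
    rw [div_le_iff₀ hκ0] at h1
    linarith
  have hLε : 128 ≤ ε * L := by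
    have h1 : 128 / ε ≤ L := by linarith
    rw [div_le_iff₀ hε] at h1
    linarith
  have hL0 : 0 < L := by linarith
  -- N
  have hNx : (N : ℝ) ≤ x := by rw [hN]; exact Nat.floor_le hx0.le
  have hxN : x / 2 ≤ N := by
    have h1 := Nat.sub_one_lt_floor x
    rw [← hN] at h1
    linarith
  have hN2 : (2 : ℝ) ≤ N := by linarith
  have hN2' : 2 ≤ N := by exact_mod_cast hN2
  have hNN0 : N0 ≤ N := by
    rw [hN]
    exact Nat.le_floor (by linarith)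
  have hN00 : (0 : ℝ) < N := by linarith
  -- W
  have hWpos : 0 < W := by rw [hW]; exact WW_pos _
  have hWL : (W : ℝ) ≤ L := by
    rw [hW, hL]
    exact MAJ_W (by rw [← hL]; linarith)
  have hW0 : (0 : ℝ) < W := by exact_mod_cast hWpos
  have hW2 : 2 ∣ W := by
    rw [hW]
    unfold WW
    exact Finset.dvd_prod_of_mem _ (mem_PP.2 ⟨e4, Nat.prime_two⟩)
  -- D
  have hxs4 : 4 ≤ x ^ s := by
    rw [Real.rpow_def_of_pos hx0, ← hL]
    have h1 := Real.add_one_le_exp (L * s)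
    nlinarith
  obtain ⟨D, hD⟩ : ∃ D, D = ⌊x ^ s⌋₊ := ⟨_, rfl⟩
  have hDx : (D : ℝ) ≤ x ^ s := by rw [hD]; exact Nat.floor_le (by positivity)
  have hxD : x ^ s / 2 ≤ D := by
    have h1 := Nat.sub_one_lt_floor (x ^ s)
    rw [← hD] at h1
    linarith
  have hD2 : 2 ≤ D := by
    have : (2 : ℝ) ≤ D := by linarith
    exact_mod_cast this
  have hlogD : s * L / (1 + κ) ≤ Real.log D := by
    have h1 : Real.log (x ^ s / 2) ≤ Real.log D := Real.log_le_log (by positivity) hxD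
    rw [Real.log_div (by positivity) (by norm_num), Real.log_rpow hx0, ← hL] at h1
    have h2 := Real.log_two_lt_d9
    rw [div_le_iff₀ (by linarith)]
    have h3 : 1 ≤ s * (κ * L) / 2 := by nlinarith
    have h4 : s * L - Real.log 2 ≤ Real.log D := h1
    have h5 : (s * L - Real.log 2) * (1 + κ) ≤ Real.log D * (1 + κ) := by gcongr
    nlinarith
  have hlD0 : 0 < Real.log D := lt_of_lt_of_le (by positivity) hlogD
  -- the error terms
  obtain ⟨E, hE0, hE1, hE2⟩ := hN0 N hNN0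
  have hZr : ((W * D ^ 2 : ℕ) : ℝ) ≤ (N : ℝ) ^ (1 / 2 - η) := by
    push_cast
    have h1 : (W : ℝ) * (D : ℝ) ^ 2 ≤ L * (x ^ s) ^ 2 := by gcongr
    have h2 : (x / 2) ^ (1 / 2 - η) ≤ (N : ℝ) ^ (1 / 2 - η) :=
      Real.rpow_le_rpow (by positivity) hxN (by linarith)
    have h3 : (x / 2) ^ (1 / 2 - η) = x ^ (1 / 2 - η) / 2 ^ (1 / 2 - η) :=
      Real.div_rpow hx0.le (by norm_num) _
    have h4 : (2 : ℝ) ^ (1 / 2 - η) ≤ 2 := by
      calc (2 : ℝ) ^ (1 / 2 - η) ≤ 2 ^ (1 : ℝ) :=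
            Real.rpow_le_rpow_of_exponent_le (by norm_num) (by linarith)
        _ = 2 := Real.rpow_one 2
    have h5 : x ^ (1 / 2 - η) = (x ^ s) ^ 2 * x ^ η := by
      rw [← Real.rpow_natCast, ← Real.rpow_mul hx0.le, ← Real.rpow_add hx0]
      congr 1
      rw [hs]
      push_cast
      ring
    have h6 : x ^ (1 / 2 - η) / 2 ≤ (x / 2) ^ (1 / 2 - η) := by
      rw [h3]
      gcongr
    have h7 : L * (x ^ s) ^ 2 ≤ x ^ (1 / 2 - η) / 2 := by
      rw [h5]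
      rw [pow_one] at e6
      have : 0 < (x ^ s) ^ 2 := by positivity
      nlinarith
    linarith
  have hZ : W * D ^ 2 ≤ ⌊(N : ℝ) ^ (1 / 2 - η)⌋₊ := Nat.le_floor hZr
  have hred := PV_red (N := N) (W := W) (u := u) (D := D) hh hWpos hW2 hu hD2 (PV_Linn hN2) (E := E)
    (fun e he1 he2 a ha => hE1 (W * e) (Nat.mul_pos hWpos he1) (by
      refine le_trans ?_ hZr
      exact_mod_cast Nat.mul_le_mul_left W he2) a ha N hN2' le_rfl)
  have hes := PV_es hWpos hZ hE0 (abs_nonneg (h : ℝ)) (fun e => Squarefree e ∧ e.Coprime (W * h.natAbs))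
  have habs : |(3 : ℝ)| = 3 := by norm_num
  rw [habs] at hE2
  have hsm' := hsm η hη N (by omega)
  rw [habs] at hsm'
  have herr : ∑ e ∈ (Finset.Icc 1 (D ^ 2)).filter (fun e => Squarefree e ∧ e.Coprime (W * h.natAbs)),
      (3 : ℝ) ^ e.primeFactors.card * (E (W * e) + |(h : ℝ)|) ≤ ε / 2 * (x / L ^ 3) := by
    refine hes.trans ?_
    have h1 : (N : ℝ) / Real.log N ^ (5 : ℝ) ≤ ε / 4 * (x / L ^ 3) := by
      have h2 : L / 2 ≤ Real.log N := by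
        have h3 : Real.log (x / 2) ≤ Real.log N := Real.log_le_log (by positivity) hxN
        rw [Real.log_div hx0.ne' (by norm_num), ← hL] at h3
        have := Real.log_two_lt_d9
        linarith
      have h3 : (L / 2) ^ 5 ≤ Real.log N ^ (5 : ℝ) := by
        have h4 : Real.log N ^ (5 : ℝ) = Real.log N ^ 5 := by
          rw [← Real.rpow_natCast]
          norm_num
        rw [h4]
        gcongr
      calc (N : ℝ) / Real.log N ^ (5 : ℝ) ≤ x / (L / 2) ^ 5 := by gcongr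
        _ = (32 / L ^ 2) * (x / L ^ 3) := by
            field_simp
            ring
        _ ≤ ε / 4 * (x / L ^ 3) := by
            refine mul_le_mul_of_nonneg_right ?_ (by positivity)
            rw [div_le_iff₀ (by positivity)]
            nlinarith
    have h2 : |(h : ℝ)| * ∑ q ∈ Finset.Icc 1 ⌊(N : ℝ) ^ (1 / 2 - η)⌋₊, (3 : ℝ) ^ q.primeFactors.card ≤
        ε / 4 * (x / L ^ 3) := by
      calc |(h : ℝ)| * ∑ q ∈ Finset.Icc 1 ⌊(N : ℝ) ^ (1 / 2 - η)⌋₊, (3 : ℝ) ^ q.primeFactors.card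
          ≤ L ^ 2 * (C1 * (N : ℝ) ^ (3 / 4 : ℝ)) := by
            refine mul_le_mul hhL hsm' (Finset.sum_nonneg fun _ _ => by positivity) (by positivity)
        _ ≤ L ^ 2 * ((C1 + 1) * x ^ (3 / 4 : ℝ)) := by
            gcongr
            linarith
        _ = (L ^ 5 * (C1 + 1)) * (x ^ (3 / 4 : ℝ) / L ^ 3) := by
            field_simp
        _ ≤ (ε / (4 * (C1 + 1)) * x ^ (1 / 4 : ℝ) * (C1 + 1)) * (x ^ (3 / 4 : ℝ) / L ^ 3) := by
            gcongr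
        _ = ε / 4 * ((x ^ (1 / 4 : ℝ) * x ^ (3 / 4 : ℝ)) / L ^ 3) := by
            field_simp
        _ = ε / 4 * (x / L ^ 3) := by
            rw [← Real.rpow_add hx0]
            norm_num
    linarith
  -- the main term
  have hwp1 : 1 ≤ wp (yy x) := one_le_wp _
  have hφ : (Nat.totient W : ℝ) = W / wp (yy x) := by
    unfold wp
    rw [← hW]
    have h1 : (0 : ℝ) < (Nat.totient W : ℝ) := by exact_mod_cast Nat.totient_pos.2 hWpos
    field_simp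
  have hCb : Cb (W * h.natAbs) ≤ (1 + κ) * wp (yy x) := by
    rw [hW]
    refine hX1 x e1 h.natAbs (Nat.one_le_iff_ne_zero.2 (Int.natAbs_ne_zero.2 hh)) ?_
    rw [Nat.cast_natAbs, Int.cast_abs, ← hL]
    exact hhL
  have hLi : Pool.Agent.H17.ZB.Li N ≤ (1 + κ) * (x / L) :=
    PV_lin hκ0 hκ1 hδ e3 hL (by linarith) e7 hxN hNx
  have hLi0 := PV_Linn hN2
  have hmain : Cb (W * h.natAbs) * (Pool.Agent.H17.ZB.Li N / (Nat.totient W : ℝ)) / Real.log D ≤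
      (1 / s + ε / 2) * wp (yy x) ^ 2 * (x / (W * L ^ 2)) := by
    have h1 : Pool.Agent.H17.ZB.Li N / (Nat.totient W : ℝ) ≤ (1 + κ) * (x / L) * (wp (yy x) / W) := by
      rw [hφ, div_div_eq_mul_div, mul_div_assoc]
      gcongr
    have h1' : 0 ≤ Pool.Agent.H17.ZB.Li N / (Nat.totient W : ℝ) := by positivity
    calc Cb (W * h.natAbs) * (Pool.Agent.H17.ZB.Li N / (Nat.totient W : ℝ)) / Real.log D
        ≤ ((1 + κ) * wp (yy x)) * ((1 + κ) * (x / L) * (wp (yy x) / W)) / (s * L / (1 + κ)) := by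
          gcongr
      _ = (1 + κ) ^ 3 / s * wp (yy x) ^ 2 * (x / (W * L ^ 2)) := by
          field_simp
      _ ≤ (1 / s + ε / 2) * wp (yy x) ^ 2 * (x / (W * L ^ 2)) := by
          have h2 : (1 + κ) ^ 3 / s ≤ 1 / s + ε / 2 := by
            have h3 : (1 + κ) ^ 3 ≤ 1 + 7 * κ := by nlinarith [mul_nonneg hκ0.le (sub_nonneg.2 hκ1), mul_nonneg (mul_nonneg hκ0.le hκ0.le) (sub_nonneg.2 hκ1)]
            have h4 : 7 * κ / s ≤ ε / 2 := by
              rw [div_le_iff₀ (by linarith)]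
              nlinarith
            calc (1 + κ) ^ 3 / s ≤ (1 + 7 * κ) / s := by gcongr
              _ = 1 / s + 7 * κ / s := by rw [add_div]
              _ ≤ 1 / s + ε / 2 := by linarith
          gcongr
  have herr2 : ε / 2 * (x / L ^ 3) ≤ ε / 2 * wp (yy x) ^ 2 * (x / (W * L ^ 2)) := by
    have h1 : x / L ^ 3 ≤ x / (W * L ^ 2) := by
      have h2 : (W : ℝ) * L ^ 2 ≤ L ^ 3 := by
        have : L ^ 3 = L * L ^ 2 := by ring
        rw [this]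
        gcongr
      gcongr
    have h2 : (1 : ℝ) ≤ wp (yy x) ^ 2 := one_le_pow₀ hwp1
    calc ε / 2 * (x / L ^ 3) ≤ ε / 2 * (x / (W * L ^ 2)) := by gcongr
      _ = ε / 2 * 1 * (x / (W * L ^ 2)) := by ring
      _ ≤ ε / 2 * wp (yy x) ^ 2 * (x / (W * L ^ 2)) := by gcongr
  -- the sets
  have hsub : ((((Finset.Icc 1 N).filter (fun m : ℕ => m.Prime ∧ m ≡ u [MOD W] ∧ isP ((m : ℤ) + h) ∧
      x ^ (1 / 4 : ℝ) < (m : ℝ) + (h : ℝ))).card : ℕ) : ℝ) ≤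
      ((((Finset.Icc 1 N).filter (fun m => m.Prime ∧ m ≡ u [MOD W])).filter
      (fun m : ℕ => 1 ≤ (m : ℤ) + h ∧ (((m : ℤ) + h).toNat.Prime ∧ D < ((m : ℤ) + h).toNat))).card : ℝ) := by
    refine Nat.cast_le.2 (Finset.card_le_card fun m hm => ?_)
    rw [Finset.mem_filter] at hm
    obtain ⟨h1, h2, h3, h4, h5⟩ := hm
    have h6 : ((m : ℤ) + h).toNat.Prime := h4
    have h7 : 1 ≤ (m : ℤ) + h := by
      have := h6.two_le
      omega
    rw [Finset.mem_filter, Finset.mem_filter]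
    refine ⟨⟨h1, h2, h3⟩, h7, h6, ?_⟩
    have h8 : ((((m : ℤ) + h).toNat : ℕ) : ℤ) = (m : ℤ) + h := by omega
    have h9 : ((((m : ℤ) + h).toNat : ℕ) : ℝ) = (m : ℝ) + (h : ℝ) := by exact_mod_cast h8
    have h10 : (D : ℝ) < ((((m : ℤ) + h).toNat : ℕ) : ℝ) := by
      rw [h9]
      refine lt_of_le_of_lt (hDx.trans ?_) h5
      exact Real.rpow_le_rpow_of_exponent_le (by linarith) hs4
    exact_mod_cast h10
  calc _ ≤ _ := hsub
    _ ≤ _ := hred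
    _ ≤ (1 / s + ε / 2) * wp (yy x) ^ 2 * (x / (W * L ^ 2)) + ε / 2 * (x / L ^ 3) := add_le_add hmain herr
    _ ≤ (1 / s + ε / 2) * wp (yy x) ^ 2 * (x / (W * L ^ 2)) +
        ε / 2 * wp (yy x) ^ 2 * (x / (W * L ^ 2)) := by linarith
    _ = (1 / s + ε) * wp (yy x) ^ 2 * (x / (W * L ^ 2)) := by ring

end Pool.Agent.H96.FD
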