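import Pool.Agent.H17.WBT

/-!
# SP: Selberg's sieve for shifted primes (density `1/φ(d)`)

Copy of `weighted_bt_explicit` (`Pool/Agent/H17/WBT.lean`) with `nu(p) = 1/(p-1)` instead of `1/p`: `b` is even, so the sifting primes `p ≤ D`, `p ∤ b`, are `≥ 3` and `0 < nu p < 1`. Take `nu n = ∏_{p ∣ n} 1/(p-1)` (multiplicative; `= 1/φ(n)` for squarefree `n`:
`Nat.totient_prime`, `Nat.totient_mul`), `prodPrimes = WWb b D`, `support = I`, `weights = w`, `totalMass = X`. `selbergTerms p = nu/(1-nu) = 1/(p-2) ≥ 1/(p-1)`, so `Selb.GG ≥ Op (PPb b D) (fun p => 1/(p-1)) one1 D ≥ log D/Cb b` (`svb_GG` for the shape, termwise inequality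
`∏ 1/(p-2) ≥ ∏ 1/(p-1)`; `GG_lower`). `Selb.selberg_bound`; the error term exactly as in `svb_err` (`3 ^ ω(e)`).
-/

set_option autoImplicit false

namespace Pool.Agent.H96.FD

open Pool.Agent.H17

/-- the density `1/φ(e)` -/
noncomputable def SPnu : ArithmeticFunction ℝ :=
  ArithmeticFunction.prodPrimeFactors (fun p => 1 / ((p : ℝ) - 1))

lemma SPnu_apply {n : ℕ} (hn : n ≠ 0) : SPnu n = ∏ p ∈ n.primeFactors, 1 / ((p : ℝ) - 1) := by
  unfold SPnu
  rw [ArithmeticFunction.prodPrimeFactors_apply hn]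

lemma SPtot {n : ℕ} (hn : Squarefree n) : (Nat.totient n : ℝ) = ∏ p ∈ n.primeFactors, ((p : ℝ) - 1) := by
  have h1 := Nat.totient_mul_prod_primeFactors n
  rw [Nat.prod_primeFactors_of_squarefree hn] at h1
  have hn0 : 0 < n := Nat.pos_of_ne_zero hn.ne_zero
  have h2 : n.totient = ∏ p ∈ n.primeFactors, (p - 1) := by
    have : n.totient * n = (∏ p ∈ n.primeFactors, (p - 1)) * n := by rw [h1]; ring
    exact Nat.eq_of_mul_eq_mul_right hn0 this
  rw [h2]
  push_cast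
  refine Finset.prod_congr rfl fun p hp => ?_
  rw [Nat.cast_sub (Nat.prime_of_mem_primeFactors hp).one_le, Nat.cast_one]

lemma SPnu_squarefree {n : ℕ} (hn : Squarefree n) : SPnu n = 1 / (Nat.totient n : ℝ) := by
  rw [SPnu_apply hn.ne_zero, Finset.prod_div_distrib, Finset.prod_const_one, SPtot hn]

lemma SPnu_prime {p : ℕ} (hp : p.Prime) : SPnu p = 1 / ((p : ℝ) - 1) := by
  rw [SPnu_apply hp.ne_zero, hp.primeFactors, Finset.prod_singleton]

lemma SP_three {b p : ℕ} (h2 : 2 ∣ b) (hp : p.Prime) (hpb : ¬ p ∣ b) : (3 : ℝ) ≤ p := by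
  have h1 : p ≠ 2 := fun h => hpb (h ▸ h2)
  have h3 := hp.two_le
  exact_mod_cast (by omega : 3 ≤ p)

lemma SP_dvd {b D p : ℕ} (hp : p.Prime) (h : p ∣ WWb b D) : ¬ p ∣ b := by
  have h1 : p ∈ (WWb b D).primeFactors := Nat.mem_primeFactors.2 ⟨hp, h, (WWb_pos b D).ne'⟩
  rw [primeFactors_WWb, mem_PPb] at h1
  exact h1.2.2

/-- the sieve problem -/
noncomputable def SPv (b D : ℕ) (h2 : 2 ∣ b) (I : Finset ℕ) (w : ℕ → ℝ) (hw : ∀ n, 0 ≤ w n) (X : ℝ) : BoundingSieve where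
  support := I
  prodPrimes := WWb b D
  prodPrimes_squarefree := squarefree_WWb b D
  weights := w
  weights_nonneg := hw
  totalMass := X
  nu := SPnu
  nu_mult := by
    unfold SPnu
    exact ArithmeticFunction.IsMultiplicative.prodPrimeFactors _
  nu_pos_of_prime := by
    intro p hp _
    rw [SPnu_prime hp]
    have h2 : (1 : ℝ) < p := by exact_mod_cast hp.one_lt
    exact one_div_pos.2 (by linarith)
  nu_lt_one_of_prime := by
    intro p hp hd
    rw [SPnu_prime hp]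
    have h3 := SP_three h2 hp (SP_dvd hp hd)
    rw [div_lt_one (by linarith)]
    linarith

lemma SPv_GG (b D : ℕ) (h2 : 2 ∣ b) (I : Finset ℕ) (w : ℕ → ℝ) (hw : ∀ n, 0 ≤ w n) (X : ℝ) :
    Op (PPb b D) (fun p => 1 / ((p : ℝ) - 1)) one1 D ≤ Selb.GG (SPv b D h2 I w hw X) D := by
  unfold Selb.GG Op
  show _ ≤ ∑ l ∈ (Nat.divisors (WWb b D)).filter (fun l => l ≤ D), (SPv b D h2 I w hw X).selbergTerms l
  rw [sum_divisors_WWb]
  apply Finset.sum_le_sum
  intro T hT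
  rw [Finset.mem_powerset] at hT
  have hpr : ∀ p ∈ T, p.Prime := fun p hp => (mem_PPb.mp (hT hp)).2.1
  have hp3 : ∀ p ∈ T, (3 : ℝ) ≤ p := fun p hp => SP_three h2 (hpr p hp) (mem_PPb.mp (hT hp)).2.2
  have hpos : 0 < ∏ p ∈ T, p := Finset.prod_pos (fun p hp => (hpr p hp).pos)
  have h1 : (SPv b D h2 I w hw X).selbergTerms (∏ p ∈ T, p) = ∏ p ∈ T, 1 / ((p : ℝ) - 2) := by
    rw [BoundingSieve.selbergTerms_apply, Nat.primeFactors_prod hpr]
    show SPnu (∏ p ∈ T, p) * ∏ p ∈ T, (1 - SPnu p)⁻¹ = _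
    rw [SPnu_apply hpos.ne', Nat.primeFactors_prod hpr, ← Finset.prod_mul_distrib]
    apply Finset.prod_congr rfl
    intro p hp
    rw [SPnu_prime (hpr p hp)]
    have h2 := hp3 p hp
    have h4 : (p : ℝ) - 1 ≠ 0 := by linarith
    have h5 : (p : ℝ) - 2 ≠ 0 := by linarith
    rw [one_sub_div h4, inv_div, show (p : ℝ) - 1 - 1 = (p : ℝ) - 2 by ring]
    field_simp
  rw [h1]
  have hle : ∏ p ∈ T, 1 / ((p : ℝ) - 1) ≤ ∏ p ∈ T, 1 / ((p : ℝ) - 2) := by
    refine Finset.prod_le_prod (fun p hp => ?_) fun p hp => ?_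
    · have h2 := hp3 p hp
      exact (one_div_pos.2 (by linarith)).le
    · have h2 := hp3 p hp
      exact one_div_le_one_div_of_le (by linarith) (by linarith)
  unfold one1
  by_cases h2 : ∏ p ∈ T, p ≤ D
  · rw [if_pos h2, if_pos (show 1 ≤ D / ∏ p ∈ T, p from Nat.div_pos h2 hpos), mul_one]
    exact hle
  · rw [if_neg h2, if_neg (by rw [Nat.div_eq_of_lt (not_le.mp h2)]; omega), mul_zero]

open BoundingSieve in
lemma SPv_err (b D : ℕ) (h2 : 2 ∣ b) (I : Finset ℕ) (w : ℕ → ℝ) (hw : ∀ n, 0 ≤ w n) (X : ℝ) :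
    ∑ d1 ∈ (Nat.divisors (WWb b D)).filter (fun l => l ≤ D),
      ∑ d2 ∈ (Nat.divisors (WWb b D)).filter (fun l => l ≤ D), |(SPv b D h2 I w hw X).rem (d1.lcm d2)|
      ≤ ∑ e ∈ (Finset.Icc 1 (D ^ 2)).filter (fun e => Squarefree e ∧ e.Coprime b),
          (3 : ℝ) ^ e.primeFactors.card * |(∑ n ∈ I.filter (fun n => e ∣ n), w n) - X / (Nat.totient e : ℝ)| := by
  classical
  set V := (Nat.divisors (WWb b D)).filter (fun l => l ≤ D) with hV
  set E := (Finset.Icc 1 (D ^ 2)).filter (fun e => Squarefree e ∧ e.Coprime b) with hE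
  have hmap : ∀ u ∈ V ×ˢ V, (u.1.lcm u.2) ∈ E := by
    intro u hu
    rw [Finset.mem_product, hV, Finset.mem_filter, Finset.mem_filter, Nat.mem_divisors, Nat.mem_divisors] at hu
    obtain ⟨⟨⟨h1, h2⟩, h3⟩, ⟨h4, _⟩, h5⟩ := hu
    have h6 : u.1.lcm u.2 ∣ WWb b D := Nat.lcm_dvd h1 h4
    rw [hE, Finset.mem_filter, Finset.mem_Icc]
    refine ⟨⟨Nat.pos_of_ne_zero (ne_zero_of_dvd_ne_zero h2 h6), ?_⟩,
      Squarefree.squarefree_of_dvd h6 (squarefree_WWb b D), coprime_of_dvd_WWb h6⟩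
    have h7 : u.1 * u.2 ≠ 0 := Nat.mul_ne_zero (ne_zero_of_dvd_ne_zero h2 h1) (ne_zero_of_dvd_ne_zero h2 h4)
    calc u.1.lcm u.2 ≤ u.1 * u.2 := Nat.le_of_dvd (Nat.pos_of_ne_zero h7) (Nat.lcm_dvd_mul _ _)
      _ ≤ D * D := Nat.mul_le_mul h3 h5
      _ = D ^ 2 := by ring
  rw [← Finset.sum_product', ← Finset.sum_fiberwise_of_maps_to hmap]
  apply Finset.sum_le_sum
  intro e he
  have hesq : Squarefree e := (Finset.mem_filter.mp he).2.1
  have hrem : (SPv b D h2 I w hw X).rem e = (∑ n ∈ I.filter (fun n => e ∣ n), w n) - X / (Nat.totient e : ℝ) := by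
    unfold BoundingSieve.rem BoundingSieve.multSum
    show (∑ n ∈ I, (if e ∣ n then w n else 0)) - SPnu e * X = _
    rw [Finset.sum_filter, SPnu_squarefree hesq]
    ring
  have h1 : ∑ u ∈ (V ×ˢ V).filter (fun u => u.1.lcm u.2 = e), |(SPv b D h2 I w hw X).rem (u.1.lcm u.2)|
      = (((V ×ˢ V).filter (fun u => u.1.lcm u.2 = e)).card : ℝ) * |(SPv b D h2 I w hw X).rem e| := by
    rw [← nsmul_eq_mul, ← Finset.sum_const]
    apply Finset.sum_congr rfl
    intro u hu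
    rw [(Finset.mem_filter.mp hu).2]
  rw [h1, hrem]
  apply mul_le_mul_of_nonneg_right _ (abs_nonneg _)
  have h2 : (V ×ˢ V).filter (fun u => u.1.lcm u.2 = e) ⊆ (e.divisors ×ˢ e.divisors).filter (fun u => u.1.lcm u.2 = e) := by
    intro u hu
    rw [Finset.mem_filter] at hu ⊢
    refine ⟨?_, hu.2⟩
    rw [Finset.mem_product, Nat.mem_divisors, Nat.mem_divisors]
    exact ⟨⟨by rw [← hu.2]; exact Nat.dvd_lcm_left _ _, hesq.ne_zero⟩, ⟨by rw [← hu.2]; exact Nat.dvd_lcm_right _ _, hesq.ne_zero⟩⟩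
  have h3 := Finset.card_le_card h2
  rw [Nat.card_pair_lcm_eq hesq] at h3
  have h4 : ArithmeticFunction.cardDistinctFactors e = e.primeFactors.card := by
    rw [ArithmeticFunction.cardDistinctFactors_apply, ← List.card_toFinset]
    rfl
  rw [h4] at h3
  exact_mod_cast h3

open BoundingSieve in
theorem SPw (b : ℕ) (hb : 1 ≤ b) (h2 : 2 ∣ b) (D : ℕ) (hD : 2 ≤ D) (I : Finset ℕ) (w : ℕ → ℝ) (hw : ∀ n, 0 ≤ w n)
    (X : ℝ) (hX : 0 ≤ X) :
    ∑ n ∈ I.filter (fun n => n.Prime ∧ D < n), w n ≤ Cb b * X / Real.log D +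
      ∑ e ∈ (Finset.Icc 1 (D ^ 2)).filter (fun e => Squarefree e ∧ e.Coprime b),
        (3 : ℝ) ^ e.primeFactors.card * |(∑ n ∈ I.filter (fun n => e ∣ n), w n) - X / (Nat.totient e : ℝ)| := by
  have h1 := Selb.selberg_bound (s := SPv b D h2 I w hw X) (z := D) (by omega)
  have hGG := SPv_GG b D h2 I w hw X
  have h2' := SPv_err b D h2 I w hw X
  have h3 := GG_lower b hb (D := D) (by omega)
  have hlog : 0 < Real.log D := Real.log_pos (by exact_mod_cast (by omega : 1 < D))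
  set G := Selb.GG (SPv b D h2 I w hw X) D with hG
  have hCb := Cb_pos b
  have h3' : Real.log D ≤ Cb b * G := h3.trans (mul_le_mul_of_nonneg_left hGG hCb.le)
  have hG0 : 0 < G := by
    by_contra hcon
    have := mul_nonpos_of_nonneg_of_nonpos hCb.le (not_lt.mp hcon)
    linarith
  have h4 : X * G⁻¹ ≤ Cb b * X / Real.log D := by
    rw [← div_eq_mul_inv, div_le_div_iff₀ hG0 hlog]
    calc X * Real.log D ≤ X * (Cb b * G) := by gcongr
      _ = Cb b * X * G := by ring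
  have h5 : ∑ n ∈ I.filter (fun n => n.Prime ∧ D < n), w n ≤ (SPv b D h2 I w hw X).siftedSum := by
    unfold BoundingSieve.siftedSum
    show _ ≤ ∑ n ∈ I, (if Nat.Coprime (WWb b D) n then w n else 0)
    rw [← Finset.sum_filter]
    apply Finset.sum_le_sum_of_subset_of_nonneg
    · intro n hn
      rw [Finset.mem_filter] at hn ⊢
      refine ⟨hn.1, ?_⟩
      unfold WWb
      apply Nat.Coprime.prod_left
      intro p hp
      rw [mem_PPb] at hp
      rw [Nat.coprime_primes hp.2.1 hn.2.1]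
      have := hn.2.2
      omega
    · intro n _ _
      exact hw n
  have h6 : (SPv b D h2 I w hw X).totalMass = X := rfl
  rw [h6] at h1
  calc ∑ n ∈ I.filter (fun n => n.Prime ∧ D < n), w n ≤ (SPv b D h2 I w hw X).siftedSum := h5
    _ ≤ X * G⁻¹ + _ := h1
    _ ≤ _ := add_le_add h4 h2'

end Pool.Agent.H96.FD
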